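import Pool.Agent.W_MP_84eb94_lc.Extend

open Set Cardinal

universe u

namespace Pool.Agent.MP84eb94

variable {Λ Ω : Type u} [LinearOrder Λ] [LinearOrder Ω] {C : Ctx Λ Ω}

/-- the functions of the conditions in a family, with the index as first argument -/
def fam (z₀ : Λ) (g : Λ → Cond C) (k : ℕ) : List Λ → Λ
  | [] => z₀
  | x :: l => (g x).a k l

/-- an arbitrary map on the index, as a function on lists -/
def fun1 (z₀ : Λ) (f : Λ → Λ) : List Λ → Λ
  | [] => z₀
  | x :: _ => f x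

/-- an arbitrary binary map, as a function on lists -/
def fun2 (z₀ : Λ) (f : Λ → Λ → Λ) : List Λ → Λ
  | x :: y :: _ => f x y
  | _ => z₀

/-- `q` extends `r` except for the functions -/
structure WLe (q r : Cond C) : Prop where
  sub : r.L ⊆ q.L
  sim : XSim C r.a r.a r.L q.e r.e
  prom : ∀ x ∈ r.L, q.e x ∈ C.R → ∀ w ∈ q.L, q.e w < q.e x →
    ∃ y ∈ r.L, q.e w ≤ q.e y ∧ q.e y < q.e x

/-- adding the functions of a condition indexed by the value of a label. Proof: take `u` from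
`decide_aux q z hz` and let `q' = ⟨q.l, u, mrg q.a (g (u z)).a, _⟩`. For the hypothesis of the last
clause of `decide_aux` with `a' = mrg q.a (g (u z)).a`: for a function `(g (u z)).a k` use that
`fam z₀ g k ∈ range q.a` and apply the similarity to the list `z :: I`, where
`fam z₀ g k ((z :: I).map v) = (g (v z)).a k (I.map v)` and `v z = u z`. The order clauses of
`q' ≤ q` are immediate since the label sets agree. -/
theorem exists_add (z₀ : Λ) (g : Λ → Cond C) (q : Cond C) (hg : range (fam z₀ g) ⊆ range q.a)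
    (z : Ω) (hz : z ∈ q.L) :
    ∃ q' ≤ q, q'.l = q.l ∧ range (g (q'.e z)).a ⊆ range q'.a := by
  obtain ⟨u, hu, hgood⟩ := decide_aux q z hz
  have key : ∀ v, XSim C q.a q.a q.L v u → v z = u z →
      XSim C (mrg q.a (g (u z)).a) (mrg q.a (g (u z)).a) q.L v u := by
    intro v hv hvz
    have hcase : ∀ n, (∃ m, mrg q.a (g (u z)).a n = q.a m) ∨
        (∃ k, mrg q.a (g (u z)).a n = (g (u z)).a k) := by
      intro n
      have h1 : mrg q.a (g (u z)).a n ∈ range q.a ∪ range (g (u z)).a := by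
        rw [← range_mrg]; exact ⟨n, rfl⟩
      rcases h1 with ⟨m, hm⟩ | ⟨k, hk⟩
      · exact Or.inl ⟨m, hm.symm⟩
      · exact Or.inr ⟨k, hk.symm⟩
    have hcons : ∀ I : List Ω, (∀ x ∈ I, x ∈ q.L) → ∀ x ∈ z :: I, x ∈ q.L := by
      intro I hI x hx
      rcases List.mem_cons.1 hx with rfl | hx
      · exact hz
      · exact hI x hx
    refine ⟨hv.lt, hv.mem, hv.cst, fun n I hI ζ => ?_, fun n I hI j hj => ?_⟩
    · rcases hcase n with ⟨m, hm⟩ | ⟨k, hk⟩
      · rw [hm]; exact hv.fv m I hI ζ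
      · rw [hk]
        obtain ⟨m, hm⟩ := hg ⟨k, rfl⟩
        have h2 := hv.fv m (z :: I) (hcons I hI) ζ
        rw [hm, List.map_cons, List.map_cons, hvz] at h2
        exact h2
    · rcases hcase n with ⟨m, hm⟩ | ⟨k, hk⟩
      · rw [hm]; exact hv.fe m I hI j hj
      · rw [hk]
        obtain ⟨m, hm⟩ := hg ⟨k, rfl⟩
        have h2 := hv.fe m (z :: I) (hcons I hI) j hj
        rw [hm, List.map_cons, List.map_cons, hvz] at h2
        exact h2
  refine ⟨⟨q.l, u, mrg q.a (g (u z)).a, hgood _ key⟩, ?_, rfl, ?_⟩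
  · rw [Cond.le_iff]
    refine ⟨Subset.rfl, ?_, hu, fun x hx _ w hw hlt => ⟨w, hw, le_rfl, hlt⟩⟩
    show range q.a ⊆ range (mrg q.a (g (u z)).a)
    rw [range_mrg]
    exact subset_union_left
  · show range (g (u z)).a ⊆ range (mrg q.a (g (u z)).a)
    rw [range_mrg]
    exact subset_union_right

/-- the amalgamation lemma. Proof: put `r = g (q.e z)` and `r' = g (q'.e z)`. From `hc` and the
clause `fv` of `q' ≤ q` for the list `[z]` (with `ζ = f (code .. r ..)`) and the injectivity of `f`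
and `C.ι` we get that `r` and `r'` have the same code, so by `code_eq` `r.l = r'.l` (so
`r.L = r'.L`) and `XSim C r.a r'.a r.L r.e r'.e`. Next `XSim C r'.a r.a r.L q'.e q.e`: the base
clauses come from `q' ≤ q`, and for `fv`, `fe` and `n = k` use that `fam z₀ g k ∈ range q.a` and
the similarity of `q'.e` and `q.e` on `q.L` for the list `z :: I`, as
`fam z₀ g k ((z :: I).map q'.e) = r'.a k (I.map q'.e)` and
`fam z₀ g k ((z :: I).map q.e) = r.a k (I.map q.e)`. With `hw.sim` and `XSim.trans` we get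
`XSim C r'.a r'.a r'.L q'.e r'.e`. Last clause: for `x ∈ r'.L = r.L`, `w ∈ q'.L`, `q'.e w < q'.e x`
the last clause of `q' ≤ q` gives `w₁ ∈ q.L`, then `hw.prom` (for `q.e`, by similarity) gives
`y ∈ r.L`. -/
theorem le_of_add (z₀ : Λ) (f : Code Ω → Ω) (hf : Function.Injective f) (g : Λ → Cond C)
    (q : Cond C) (hg : range (fam z₀ g) ⊆ range q.a)
    (hc : fun1 z₀ (fun x => C.ι (f (code C (g x).l (g x).e (g x).a))) ∈ range q.a)
    (z : Ω) (hz : z ∈ q.L) (hw : WLe q (g (q.e z))) (q' : Cond C) (hq : q' ≤ q)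
    (ha : range (g (q'.e z)).a ⊆ range q'.a) : q' ≤ g (q'.e z) := by
  obtain ⟨hL, hA, hS, hP⟩ := Cond.le_iff.1 hq
  have hz' : ∀ x ∈ [z], x ∈ q.L := by
    intro x hx
    rcases List.mem_singleton.1 hx with rfl
    exact hz
  -- the codes agree
  have hcode : code C (g (q.e z)).l (g (q.e z)).e (g (q.e z)).a =
      code C (g (q'.e z)).l (g (q'.e z)).e (g (q'.e z)).a := by
    obtain ⟨m, hm⟩ := hc
    have h1 := hS.fv m [z] hz' (f (code C (g (q.e z)).l (g (q.e z)).e (g (q.e z)).a))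
    rw [hm] at h1
    have h2 := h1.2 rfl
    exact hf (C.ι_inj h2).symm
  obtain ⟨hl, hsim⟩ := code_eq hcode
  have hLL : (g (q.e z)).L = (g (q'.e z)).L := by
    unfold Cond.L
    rw [hl]
  have hcons : ∀ I : List Ω, (∀ x ∈ I, x ∈ (g (q'.e z)).L) → ∀ x ∈ z :: I, x ∈ q.L := by
    intro I hI x hx
    rcases List.mem_cons.1 hx with rfl | hx
    · exact hz
    · exact hw.sub (hLL ▸ hI x hx)
  have hsub : (g (q'.e z)).L ⊆ q.L := hLL ▸ hw.sub
  have hmid : XSim C (g (q'.e z)).a (g (q.e z)).a (g (q'.e z)).L q'.e q.e := by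
    refine ⟨(hS.mono hsub).lt, (hS.mono hsub).mem, (hS.mono hsub).cst,
      fun k I hI ζ => ?_, fun k I hI j hj => ?_⟩
    · obtain ⟨m, hm⟩ := hg ⟨k, rfl⟩
      have h2 := hS.fv m (z :: I) (hcons I hI) ζ
      rw [hm, List.map_cons, List.map_cons] at h2
      exact h2
    · obtain ⟨m, hm⟩ := hg ⟨k, rfl⟩
      have h2 := hS.fe m (z :: I) (hcons I hI) j (hsub hj)
      rw [hm, List.map_cons, List.map_cons] at h2
      exact h2
  have hsim' : XSim C (g (q'.e z)).a (g (q'.e z)).a (g (q'.e z)).L q'.e (g (q'.e z)).e := by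
    have h1 := hw.sim
    rw [hLL] at h1
    have h3 : XSim C (g (q.e z)).a (g (q'.e z)).a (g (q'.e z)).L (g (q.e z)).e (g (q'.e z)).e := by
      rw [← hLL]; exact hsim
    exact (hmid.trans h1).trans h3
  rw [Cond.le_iff]
  refine ⟨hsub.trans hL, ha, hsim', fun x hx hR w hw' hlt => ?_⟩
  have hxq : x ∈ q.L := hsub hx
  obtain ⟨w₁, hw₁, hww, hwx⟩ := hP x hxq hR w hw' hlt
  have hx2 : x ∈ (g (q.e z)).L := hLL.symm ▸ hx
  obtain ⟨y, hy, hwy, hyx⟩ := hw.prom x hx2 ((hS.mem x hxq).1 hR) w₁ hw₁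
    ((hS.lt w₁ hw₁ x hxq).1 hwx)
  have hyq : y ∈ q.L := hw.sub hy
  refine ⟨y, hLL ▸ hy, hww.trans ((hS.le_iff hw₁ hyq).2 hwy), (hS.lt y hyq x hxq).2 hyx⟩

end Pool.Agent.MP84eb94
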