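import Mathlib

open Set Cardinal

universe u

namespace Pool.Agent.MP84eb94

/-- forcing relation: the condition `p` forces that the generic filter meets `U` -/
def Frc {P : Type u} [Preorder P] (p : P) (U : Set P) : Prop :=
  ∀ q ≤ p, ∃ r ≤ q, ∃ s ∈ U, r ≤ s

/-- The combinatorial context. `Λ` is the regular cardinal `lam` as a well order, `Ω` is the
first uncountable ordinal as a well order, `ι` is an injection of `Ω` into `Λ`, and `R` is the set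
of those elements of `Λ` which are regular cardinals above the first uncountable one. -/
structure Ctx (Λ Ω : Type u) [LinearOrder Λ] [LinearOrder Ω] where
  ι : Ω → Λ
  R : Set Λ
  ι_inj : Function.Injective ι
  hR : ∀ x ∈ R, ∀ (K : Type u), #K ≤ ℵ₁ → ∀ f : K → Λ, (∀ k, f k < x) → ∃ ξ < x, ∀ k, f k ≤ ξ
  hΛ : ∀ S : Set Λ, #S < #Λ → ∃ γ, ∀ x ∈ S, x < γ
  hΛ2 : ∀ x : Λ, #(Iio x) < #Λ
  hΛ3 : ℵ₁ < #Λ
  wfΛ : WellFoundedLT Λ
  hΩ : #Ω = ℵ₁
  hΩ2 : ∀ x : Ω, (Iio x).Countable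
  wfΩ : WellFoundedLT Ω
  ch : (2 : Cardinal.{u}) ^ ℵ₀ = ℵ₁

variable {Λ Ω : Type u} [LinearOrder Λ] [LinearOrder Ω] (C : Ctx Λ Ω)

/-- `u` and `v` realize the same quantifier free type on the label set `L`, where the function
symbols are interpreted by `a` for `u` and by `a'` for `v` -/
structure XSim {J : Type*} (a a' : J → List Λ → Λ) (L : Set Ω) (u v : Ω → Λ) : Prop where
  lt : ∀ x ∈ L, ∀ y ∈ L, (u x < u y ↔ v x < v y)
  mem : ∀ x ∈ L, (u x ∈ C.R ↔ v x ∈ C.R)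
  cst : ∀ x ∈ L, ∀ ζ, (u x = C.ι ζ ↔ v x = C.ι ζ)
  fv : ∀ n, ∀ I : List Ω, (∀ x ∈ I, x ∈ L) → ∀ ζ,
    (a n (I.map u) = C.ι ζ ↔ a' n (I.map v) = C.ι ζ)
  fe : ∀ n, ∀ I : List Ω, (∀ x ∈ I, x ∈ L) → ∀ j ∈ L,
    (a n (I.map u) = u j ↔ a' n (I.map v) = v j)

/-- bounding functions -/
def CR : Set (Λ → List Λ → Λ) := {c | ∀ x ∈ C.R, ∀ l, c x l < x}

/-- weakly closed sets -/
def WC (c : Λ → List Λ → Λ) (X : Set Λ) : Prop :=
  ∀ x ∈ X, x ∈ C.R → ∀ l : List Λ, (∀ y ∈ l, y ∈ X) → ∃ ξ ∈ X, c x l ≤ ξ ∧ ξ < x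

/-- the type of `e` on `L` is realized by many sets -/
def Good (L : Set Ω) (e : Ω → Λ) (a : ℕ → List Λ → Λ) : Prop :=
  ∃ γ : Λ, ∀ c ∈ CR C, ∃ v : Ω → Λ, XSim C a a L v e ∧ (∀ x ∈ L, v x < γ) ∧ WC C c (v '' L)

/-- conditions -/
structure Cond where
  l : ℕ → Ω
  e : Ω → Λ
  a : ℕ → List Λ → Λ
  good : Good C (range l) e a

variable {C}

/-- the label set -/
def Cond.L (p : Cond C) : Set Ω := range p.l

theorem XSim.refl {J : Type*} (a : J → List Λ → Λ) (L : Set Ω) (u : Ω → Λ) : XSim C a a L u u :=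
  ⟨fun _ _ _ _ => Iff.rfl, fun _ _ => Iff.rfl, fun _ _ _ => Iff.rfl,
    fun _ _ _ _ => Iff.rfl, fun _ _ _ _ _ => Iff.rfl⟩

theorem XSim.symm {J : Type*} {a a' : J → List Λ → Λ} {L : Set Ω} {u v : Ω → Λ}
    (h : XSim C a a' L u v) : XSim C a' a L v u :=
  ⟨fun x hx y hy => (h.lt x hx y hy).symm, fun x hx => (h.mem x hx).symm,
    fun x hx ζ => (h.cst x hx ζ).symm, fun n I hI ζ => (h.fv n I hI ζ).symm,
    fun n I hI j hj => (h.fe n I hI j hj).symm⟩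

theorem XSim.trans {J : Type*} {a a' a'' : J → List Λ → Λ} {L : Set Ω} {u v w : Ω → Λ}
    (h : XSim C a a' L u v) (h' : XSim C a' a'' L v w) : XSim C a a'' L u w :=
  ⟨fun x hx y hy => (h.lt x hx y hy).trans (h'.lt x hx y hy),
    fun x hx => (h.mem x hx).trans (h'.mem x hx),
    fun x hx ζ => (h.cst x hx ζ).trans (h'.cst x hx ζ),
    fun n I hI ζ => (h.fv n I hI ζ).trans (h'.fv n I hI ζ),
    fun n I hI j hj => (h.fe n I hI j hj).trans (h'.fe n I hI j hj)⟩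

theorem XSim.mono {J : Type*} {a a' : J → List Λ → Λ} {L L' : Set Ω} {u v : Ω → Λ}
    (h : XSim C a a' L u v) (hL : L' ⊆ L) : XSim C a a' L' u v :=
  ⟨fun x hx y hy => h.lt x (hL hx) y (hL hy), fun x hx => h.mem x (hL hx),
    fun x hx ζ => h.cst x (hL hx) ζ, fun n I hI ζ => h.fv n I (fun x hx => hL (hI x hx)) ζ,
    fun n I hI j hj => h.fe n I (fun x hx => hL (hI x hx)) j (hL hj)⟩

/-- restriction to a subfamily of functions -/
theorem XSim.sub {J J' : Type*} {a : J → List Λ → Λ} {b : J' → List Λ → Λ} {L : Set Ω}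
    {u v : Ω → Λ} (h : XSim C a a L u v) (hb : range b ⊆ range a) : XSim C b b L u v := by
  refine ⟨h.lt, h.mem, h.cst, fun n I hI ζ => ?_, fun n I hI j hj => ?_⟩
  · obtain ⟨m, hm⟩ := hb ⟨n, rfl⟩
    rw [← hm]
    exact h.fv m I hI ζ
  · obtain ⟨m, hm⟩ := hb ⟨n, rfl⟩
    rw [← hm]
    exact h.fe m I hI j hj

theorem XSim.eq_iff {J : Type*} {a a' : J → List Λ → Λ} {L : Set Ω} {u v : Ω → Λ}
    (h : XSim C a a' L u v) {x y : Ω} (hx : x ∈ L) (hy : y ∈ L) : u x = u y ↔ v x = v y := by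
  have h1 := h.lt x hx y hy
  have h2 := h.lt y hy x hx
  constructor
  · intro he
    apply le_antisymm
    · rw [← not_lt, ← h2, he]; exact lt_irrefl _
    · rw [← not_lt, ← h1, he]; exact lt_irrefl _
  · intro he
    apply le_antisymm
    · rw [← not_lt, h2, he]; exact lt_irrefl _
    · rw [← not_lt, h1, he]; exact lt_irrefl _

theorem XSim.le_iff {J : Type*} {a a' : J → List Λ → Λ} {L : Set Ω} {u v : Ω → Λ}
    (h : XSim C a a' L u v) {x y : Ω} (hx : x ∈ L) (hy : y ∈ L) : u x ≤ u y ↔ v x ≤ v y := by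
  rw [← not_lt, ← not_lt, h.lt y hy x hx]

theorem XSim.congr {J : Type*} {a a' : J → List Λ → Λ} {L : Set Ω} {u u' v : Ω → Λ}
    (h : XSim C a a' L u v) (hu : ∀ x ∈ L, u' x = u x) : XSim C a a' L u' v := by
  have hm : ∀ I : List Ω, (∀ x ∈ I, x ∈ L) → I.map u' = I.map u := by
    intro I hI
    exact List.map_congr_left (fun x hx => hu x (hI x hx))
  refine ⟨fun x hx y hy => ?_, fun x hx => ?_, fun x hx ζ => ?_, fun n I hI ζ => ?_,
    fun n I hI j hj => ?_⟩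
  · rw [hu x hx, hu y hy]; exact h.lt x hx y hy
  · rw [hu x hx]; exact h.mem x hx
  · rw [hu x hx]; exact h.cst x hx ζ
  · rw [hm I hI]; exact h.fv n I hI ζ
  · rw [hm I hI, hu j hj]; exact h.fe n I hI j hj

/-- the order of the forcing notion -/
instance : Preorder (Cond C) where
  le q p := p.L ⊆ q.L ∧ range p.a ⊆ range q.a ∧ XSim C p.a p.a p.L q.e p.e ∧
    ∀ x ∈ p.L, q.e x ∈ C.R → ∀ w ∈ q.L, q.e w < q.e x → ∃ y ∈ p.L, q.e w ≤ q.e y ∧ q.e y < q.e x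
  le_refl p := ⟨Subset.rfl, Subset.rfl, XSim.refl _ _ _, fun x hx hR w hw hlt => ⟨w, hw, le_rfl, hlt⟩⟩
  le_trans r q p := by
    rintro ⟨h1, h2, h3, h4⟩ ⟨g1, g2, g3, g4⟩
    refine ⟨g1.trans h1, g2.trans h2, ?_, ?_⟩
    · exact ((h3.sub g2).mono g1).trans g3
    · intro x hx hR w hw hlt
      obtain ⟨y, hy, hwy, hyx⟩ := h4 x (g1 hx) hR w hw hlt
      obtain ⟨z, hz, hyz, hzx⟩ := g4 x hx ((h3.mem x (g1 hx)).1 hR) y hy
        ((h3.lt y hy x (g1 hx)).1 hyx)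
      refine ⟨z, hz, hwy.trans ((h3.le_iff hy (g1 hz)).2 hyz), (h3.lt z (g1 hz) x (g1 hx)).2 hzx⟩

theorem Cond.le_iff {q p : Cond C} : q ≤ p ↔ p.L ⊆ q.L ∧ range p.a ⊆ range q.a ∧
    XSim C p.a p.a p.L q.e p.e ∧
    ∀ x ∈ p.L, q.e x ∈ C.R → ∀ w ∈ q.L, q.e w < q.e x →
      ∃ y ∈ p.L, q.e w ≤ q.e y ∧ q.e y < q.e x := Iff.rfl

/-- the label `x` is decided by `r` -/
def Dec (r : Cond C) (x : Ω) : Prop := x ∈ r.L ∧ ∃ n, r.a n = fun _ => r.e x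

theorem Dec.mono {r s : Cond C} {x : Ω} (h : Dec r x) (hs : s ≤ r) : Dec s x ∧ s.e x = r.e x := by
  obtain ⟨hx, n, hn⟩ := h
  obtain ⟨h1, h2, h3, h4⟩ := hs
  have he : s.e x = r.e x := by
    have := h3.fe n [] (by simp) x hx
    rw [hn] at this
    exact (this.2 rfl).symm
  refine ⟨⟨h1 hx, ?_⟩, he⟩
  obtain ⟨m, hm⟩ := h2 ⟨n, rfl⟩
  exact ⟨m, by rw [hm, hn, he]⟩

end Pool.Agent.MP84eb94
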