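import Pool.Agent.W_MP_84eb94_lc.Clo

open Set Cardinal

universe u

namespace Pool.Agent.MP84eb94

variable {Λ Ω : Type u} [LinearOrder Λ] [LinearOrder Ω]

/-- countable subsets of `Ω` are bounded -/
theorem bddΩ (C : Ctx Λ Ω) (s : Set Ω) (hs : s.Countable) : ∃ δ, ∀ x ∈ s, x < δ := by
  by_contra hcon
  push Not at hcon
  have h1 : (⋃ x ∈ s, Iic x).Countable := by
    refine hs.biUnion fun x _ => ?_
    have : Iic x = Iio x ∪ {x} := by
      ext y
      simp [le_iff_lt_or_eq]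
    rw [this]
    exact (C.hΩ2 x).union (countable_singleton x)
  have h2 : (⋃ x ∈ s, Iic x) = (univ : Set Ω) := by
    refine eq_univ_of_forall fun δ => ?_
    obtain ⟨x, hx, hle⟩ := hcon δ
    exact mem_biUnion hx hle
  rw [h2, ← Cardinal.le_aleph0_iff_set_countable, Cardinal.mk_univ, C.hΩ] at h1
  exact absurd h1 (not_le.2 Cardinal.aleph0_lt_aleph_one)

/-- iterate `f` and successors countably often and take the least upper bound -/
theorem statΩ_univ (C : Ctx Λ Ω) : StatΩ (univ : Set Ω) := by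
  intro f
  have hne : Nonempty Ω := by
    rw [← Cardinal.mk_ne_zero_iff, C.hΩ]
    exact (Cardinal.aleph_pos _).ne'
  have hg : ∀ x : Ω, ∃ y, x < y ∧ ∀ z ≤ x, f z < y := by
    intro x
    have hc : (insert x (f '' Iic x)).Countable := by
      refine Countable.insert _ (Countable.image ?_ _)
      have : Iic x = Iio x ∪ {x} := by
        ext y
        simp [le_iff_lt_or_eq]
      rw [this]
      exact (C.hΩ2 x).union (countable_singleton x)
    obtain ⟨δ, hδ⟩ := bddΩ C _ hc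
    exact ⟨δ, hδ x (mem_insert _ _), fun z hz => hδ _ (mem_insert_of_mem _ ⟨z, hz, rfl⟩)⟩
  choose g hg1 hg2 using hg
  obtain ⟨x0⟩ := hne
  let d : ℕ → Ω := fun n => Nat.rec x0 (fun _ y => g y) n
  have hd : ∀ n, d (n + 1) = g (d n) := fun n => rfl
  have hex : ({δ | ∀ n, d n < δ} : Set Ω).Nonempty := by
    obtain ⟨δ, hδ⟩ := bddΩ C (range d) (countable_range d)
    exact ⟨δ, fun n => hδ _ ⟨n, rfl⟩⟩
  have wf := C.wfΩ
  obtain ⟨δ, hδ, hmin⟩ := wf.wf.has_min _ hex
  have key : ∀ ζ < δ, ∃ n, ζ ≤ d n := by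
    intro ζ hζ
    by_contra hcon
    push Not at hcon
    exact hmin ζ hcon hζ
  refine ⟨δ, mem_univ _, ⟨d 0, hδ 0⟩, fun ζ hζ => ?_, fun ζ hζ => ?_⟩
  · obtain ⟨n, hn⟩ := key ζ hζ
    exact ⟨d (n + 1), hδ (n + 1), lt_of_le_of_lt hn (hg1 (d n))⟩
  · obtain ⟨n, hn⟩ := key ζ hζ
    exact (hg2 (d n) ζ hn).trans (hδ (n + 1))

end Pool.Agent.MP84eb94
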