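import Pool.Agent.W_MP_84eb94_lc.Base

open Set Cardinal

universe u

namespace Pool.Agent.MP84eb94

section
variable {Λ : Type u}

/-- closure of a set under a set valued operation on finite lists -/
inductive Cl (c : List Λ → Set Λ) (Z : Set Λ) : Λ → Prop
  | base (x : Λ) : x ∈ Z → Cl c Z x
  | step (l : List Λ) (x : Λ) : (∀ y ∈ l, Cl c Z y) → x ∈ c l → Cl c Z x

/-- closure of a set under a set valued operation on finite lists -/
def clo (c : List Λ → Set Λ) (Z : Set Λ) : Set Λ := {x | Cl c Z x}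

variable {c : List Λ → Set Λ} {Z Z' Y : Set Λ}

theorem subset_clo : Z ⊆ clo c Z := fun x hx => Cl.base x hx

theorem clo_closed {l : List Λ} (h : ∀ y ∈ l, y ∈ clo c Z) : c l ⊆ clo c Z :=
  fun x hx => Cl.step l x h hx

theorem clo_min (h : Z ⊆ Y) (h' : ∀ l : List Λ, (∀ y ∈ l, y ∈ Y) → c l ⊆ Y) : clo c Z ⊆ Y := by
  intro x hx
  induction hx with
  | base x hx => exact h hx
  | step l x _ hx ih => exact h' l ih hx

theorem clo_mono (h : Z ⊆ Z') : clo c Z ⊆ clo c Z' :=
  clo_min (h.trans subset_clo) (fun _ hl => clo_closed hl)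

/-- by induction on the derivation, concatenating the lists -/
theorem clo_fin {x : Λ} (h : x ∈ clo c Z) :
    ∃ l : List Λ, (∀ y ∈ l, y ∈ Z) ∧ x ∈ clo c {y | y ∈ l} := by
  induction h with
  | base x hx =>
    refine ⟨[x], fun y hy => ?_, subset_clo (List.mem_singleton.2 rfl)⟩
    rw [List.mem_singleton.1 hy]
    exact hx
  | step l x _ hx ih =>
    choose g hg1 hg2 using ih
    refine ⟨l.attach.flatMap fun y => g y.1 y.2, ?_, ?_⟩
    · intro z hz
      obtain ⟨y, _, hy⟩ := List.mem_flatMap.1 hz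
      exact hg1 y.1 y.2 z hy
    · refine clo_closed (fun y hy => ?_) hx
      refine clo_mono ?_ (hg2 y hy)
      intro z hz
      exact List.mem_flatMap.2 ⟨⟨y, hy⟩, List.mem_attach _ _, hz⟩

/-- the stages of the closure -/
def cloT (c : List Λ → Set Λ) (Z : Set Λ) : ℕ → Set Λ
  | 0 => Z
  | n + 1 => cloT c Z n ∪ ⋃ l : List (cloT c Z n), c (l.map Subtype.val)

theorem cloT_countable (hc : ∀ l, (c l).Countable) (hZ : Z.Countable) (n : ℕ) :
    (cloT c Z n).Countable := by
  induction n with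
  | zero => exact hZ
  | succ n ih =>
    have : Countable (cloT c Z n) := ih.to_subtype
    exact ih.union (countable_iUnion fun l => hc _)

theorem cloT_mono (c : List Λ → Set Λ) (Z : Set Λ) : Monotone (cloT c Z) :=
  monotone_nat_of_le_succ fun _ => subset_union_left

theorem cloT_list {l : List Λ} (h : ∀ y ∈ l, ∃ n, y ∈ cloT c Z n) :
    ∃ n, ∀ y ∈ l, y ∈ cloT c Z n := by
  induction l with
  | nil => exact ⟨0, fun y hy => absurd hy List.not_mem_nil⟩
  | cons a l ih =>
    obtain ⟨n, hn⟩ := ih fun y hy => h y (List.mem_cons_of_mem _ hy)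
    obtain ⟨k, hk⟩ := h a List.mem_cons_self
    refine ⟨max n k, fun y hy => ?_⟩
    rcases List.mem_cons.1 hy with rfl | hy
    · exact cloT_mono c Z (le_max_right _ _) hk
    · exact cloT_mono c Z (le_max_left _ _) (hn y hy)

/-- the closure is contained in the union of the sets `T n` with `T 0 = Z` and
`T (n + 1) = T n ∪ ⋃ (l : List (T n)), c (l.map Subtype.val)` -/
theorem clo_countable (hc : ∀ l, (c l).Countable) (hZ : Z.Countable) : (clo c Z).Countable := by
  refine (countable_iUnion fun n => cloT_countable hc hZ n).mono ?_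
  refine clo_min ?_ ?_
  · intro x hx
    exact mem_iUnion.2 ⟨0, hx⟩
  · intro l hl x hx
    obtain ⟨n, hn⟩ := cloT_list fun y hy => mem_iUnion.1 (hl y hy)
    refine mem_iUnion.2 ⟨n + 1, Or.inr (mem_iUnion.2 ⟨l.attach.map fun y => ⟨y.1, hn y.1 y.2⟩, ?_⟩)⟩
    rw [List.map_map]
    have h1 : (l.attach.map (Subtype.val ∘ fun y => (⟨y.1, hn y.1 y.2⟩ : cloT c Z n))) = l := by
      have : (Subtype.val ∘ fun y : {y // y ∈ l} => (⟨y.1, hn y.1 y.2⟩ : cloT c Z n)) =
          Subtype.val := rfl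
      rw [this, List.attach_map_subtype_val]
    rw [h1]
    exact hx

end

variable {Λ Ω : Type u} [LinearOrder Λ] [LinearOrder Ω]

/-- combinatorial form of stationarity for subsets of the first uncountable ordinal -/
def StatΩ (S : Set Ω) : Prop :=
  ∀ f : Ω → Ω, ∃ δ ∈ S, (∃ x, x < δ) ∧ (∀ ζ < δ, ∃ ζ' < δ, ζ < ζ') ∧ ∀ ζ < δ, f ζ < δ

end Pool.Agent.MP84eb94
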