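import Pool.Agent.W_MP_84eb94_lc.Gam
import Pool.Agent.W_MP_84eb94_lc.BddOm

open Set Cardinal

universe u

namespace Pool.Agent.MP84eb94

variable {Λ Ω : Type u} [LinearOrder Λ] [LinearOrder Ω]

omit [LinearOrder Λ] in
/-- a finite list of images of elements below `δ` consists of images of elements at most `ζ'` for
some `ζ' < δ` -/
theorem closed_list_bound (g : Ω → Λ) {δ : Ω} (hne : ∃ x, x < δ) (l : List Λ)
    (hl : ∀ y ∈ l, y ∈ g '' Iio δ) : ∃ ζ < δ, ∀ y ∈ l, y ∈ g '' Iic ζ := by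
  induction l with
  | nil =>
    obtain ⟨x, hx⟩ := hne
    exact ⟨x, hx, fun y hy => absurd hy List.not_mem_nil⟩
  | cons a l ih =>
    obtain ⟨ζ, hζ, h⟩ := ih fun y hy => hl y (List.mem_cons_of_mem _ hy)
    obtain ⟨η, hη, rfl⟩ := hl a List.mem_cons_self
    refine ⟨max ζ η, max_lt hζ hη, fun y hy => ?_⟩
    rcases List.mem_cons.1 hy with rfl | hy
    · exact ⟨η, le_max_right _ _, rfl⟩
    · obtain ⟨ξ, hξ, rfl⟩ := h y hy
      exact ⟨ξ, le_trans hξ (le_max_left _ _), rfl⟩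

/-- Proof: take `γ` from `exists_gamma` for `c` and for `Z = range C.ι` (its cardinality is
`#Ω = ℵ₁ < #Λ`). Let `c' l` be the union of `c l` and of `{d γ x l'}` when `l = x :: l'` and
`x ∈ C.R`, and let `X δ = clo c' (C.ι '' Iio δ)` for `δ : Ω`; this is countable, bounded by `γ`
(`clo_min`; note `d γ x l' < x`), closed under `c`, and weakly closed under `d γ` (it is closed
under it). For `ζ : Ω` let `f ζ` be a strict upper bound (`bddΩ`) of the countable set of all `η`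
with `C.ι η ∈ clo c' (C.ι '' Iic ζ)`. Take `δ ∈ S` from `hS f`. If `C.ι η ∈ X δ` then by
`clo_fin` there is a list in `C.ι '' Iio δ` generating it, hence it is in
`clo c' (C.ι '' Iic ζ)` for some `ζ < δ` and so `η < f ζ < δ`. -/
theorem exists_closed (C : Ctx Λ Ω) (c : List Λ → Set Λ) (hc : ∀ l, (c l).Countable) (S : Set Ω)
    (hS : StatΩ S) (d : Λ → Λ → List Λ → Λ) (hd : ∀ γ, d γ ∈ CR C) :
    ∃ (γ : Λ) (X : Set Λ), X.Countable ∧ (∀ x ∈ X, x < γ) ∧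
      (∀ l : List Λ, (∀ y ∈ l, y ∈ X) → c l ⊆ X) ∧ WC C (d γ) X ∧
      ∃ δ ∈ S, (∃ x, x < δ) ∧ (∀ ζ < δ, ∃ ζ' < δ, ζ < ζ') ∧ ∀ ζ, C.ι ζ ∈ X ↔ ζ < δ := by
  have hZ : #(range C.ι) < #Λ := by
    refine lt_of_le_of_lt Cardinal.mk_range_le ?_
    rw [C.hΩ]
    exact C.hΛ3
  obtain ⟨γ, hγ1, hγ2⟩ := exists_gamma C c hc (range C.ι) hZ
  let c' : List Λ → Set Λ := fun l => c l ∪ {z | ∃ x l', l = x :: l' ∧ x ∈ C.R ∧ z = d γ x l'}
  have hc' : ∀ l, (c' l).Countable := by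
    intro l
    refine (hc l).union ?_
    refine Set.Subsingleton.countable ?_
    rintro z ⟨x, l', hl, _, rfl⟩ w ⟨x', l'', hl', _, rfl⟩
    rw [hl] at hl'
    obtain ⟨rfl, rfl⟩ := List.cons.inj hl'
    rfl
  have hcl : ∀ (Z : Set Λ) (l : List Λ), (∀ y ∈ l, y ∈ clo c' Z) → c l ⊆ clo c' Z :=
    fun Z l hl x hx => clo_closed hl (Or.inl hx)
  have hIic : ∀ ζ : Ω, (C.ι '' Iic ζ).Countable := by
    intro ζ
    refine Set.Countable.image ?_ _
    have h1 : Iic ζ = insert ζ (Iio ζ) := Iio_insert.symm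
    rw [h1]
    exact (C.hΩ2 ζ).insert ζ
  have hf : ∀ ζ : Ω, ∃ η : Ω, ∀ ξ, C.ι ξ ∈ clo c' (C.ι '' Iic ζ) → ξ < η := by
    intro ζ
    obtain ⟨η, hη⟩ := bddΩ C (C.ι ⁻¹' clo c' (C.ι '' Iic ζ))
      ((clo_countable hc' (hIic ζ)).preimage C.ι_inj)
    exact ⟨η, fun ξ hξ => hη ξ hξ⟩
  choose f hf using hf
  obtain ⟨δ, hδS, hne, hlim, hfδ⟩ := hS f
  refine ⟨γ, clo c' (C.ι '' Iio δ), clo_countable hc' ((C.hΩ2 δ).image _), ?_, hcl _, ?_, δ, hδS,
    hne, hlim, ?_⟩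
  · have h : clo c' (C.ι '' Iio δ) ⊆ Iio γ := by
      refine clo_min ?_ ?_
      · rintro _ ⟨ζ, _, rfl⟩
        exact hγ1 _ ⟨ζ, rfl⟩
      · rintro l hl z (hz | ⟨x, l', rfl, hx, rfl⟩)
        · exact hγ2 l hl z hz
        · exact lt_trans (hd γ x hx l') (hl x List.mem_cons_self)
    exact fun x hx => h hx
  · intro x hx hR l hl
    refine ⟨d γ x l, ?_, le_rfl, hd γ x hR l⟩
    refine clo_closed (l := x :: l) ?_ (Or.inr ⟨x, l, rfl, hR, rfl⟩)
    intro y hy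
    rcases List.mem_cons.1 hy with rfl | hy
    · exact hx
    · exact hl y hy
  · intro ζ
    constructor
    · intro hζ
      obtain ⟨l, hl1, hl2⟩ := clo_fin hζ
      obtain ⟨η, hη, hl3⟩ := closed_list_bound C.ι hne l hl1
      exact lt_trans (hf η ζ (clo_mono (fun y hy => hl3 y hy) hl2)) (hfδ η hη)
    · intro hζ
      exact subset_clo ⟨ζ, hζ, rfl⟩

end Pool.Agent.MP84eb94
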