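import Pool.Agent.W_MP_84eb94_lc.Base

open Set Cardinal

universe u

namespace Pool.Agent.MP84eb94

variable {Λ Ω : Type u} [LinearOrder Λ] [LinearOrder Ω] {C : Ctx Λ Ω}

/-- the countable ordinal coded by an element of `Λ`, if there is one -/
noncomputable def opt (C : Ctx Λ Ω) (x : Λ) : Option Ω :=
  open Classical in if h : ∃ ζ, C.ι ζ = x then some h.choose else none

theorem opt_eq_some {x : Λ} {ζ : Ω} : opt C x = some ζ ↔ x = C.ι ζ := by
  unfold opt
  split_ifs with h
  · constructor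
    · intro h1
      have := h.choose_spec
      rw [Option.some.inj h1] at this
      exact this.symm
    · intro h1
      have h2 : C.ι h.choose = C.ι ζ := h.choose_spec.trans h1
      exact congrArg some (C.ι_inj h2)
  · constructor
    · intro h1; cases h1
    · intro h1; exact absurd ⟨ζ, h1.symm⟩ h

theorem opt_iff {x y : Λ} (h : opt C x = opt C y) (ζ : Ω) : x = C.ι ζ ↔ y = C.ι ζ := by
  rw [← opt_eq_some, ← opt_eq_some, h]

/-- the type of codes -/
abbrev Code (Ω : Type u) : Type u :=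
  (ℕ → Ω) × (ℕ → ℕ → Prop) × (ℕ → Prop) × (ℕ → Option Ω) × (ℕ → List ℕ → Option Ω) ×
    (ℕ → List ℕ → ℕ → Prop)

/-- the code of a labelled type -/
noncomputable def code (C : Ctx Λ Ω) (l : ℕ → Ω) (e : Ω → Λ) (a : ℕ → List Λ → Λ) : Code Ω :=
  (l, fun i j => e (l i) < e (l j), fun i => e (l i) ∈ C.R, fun i => opt C (e (l i)),
    fun n I => opt C (a n (I.map (fun i => e (l i)))),
    fun n I j => a n (I.map (fun i => e (l i))) = e (l j))

theorem exists_list {l : ℕ → Ω} {J : List Ω} (h : ∀ x ∈ J, x ∈ range l) :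
    ∃ I : List ℕ, J = I.map l := by
  induction J with
  | nil => exact ⟨[], rfl⟩
  | cons x J ih =>
    obtain ⟨I, hI⟩ := ih (fun y hy => h y (List.mem_cons_of_mem _ hy))
    obtain ⟨i, hi⟩ := h x List.mem_cons_self
    exact ⟨i :: I, by rw [List.map_cons, hi, hI]⟩

theorem code_eq {l l' : ℕ → Ω} {e e' : Ω → Λ} {a a' : ℕ → List Λ → Λ}
    (h : code C l e a = code C l' e' a') : l = l' ∧ XSim C a a' (range l) e e' := by
  simp only [code, Prod.mk.injEq] at h
  obtain ⟨rfl, h1, h2, h3, h4, h5⟩ := h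
  refine ⟨rfl, ?_, ?_, ?_, ?_, ?_⟩
  · rintro _ ⟨i, rfl⟩ _ ⟨j, rfl⟩
    exact iff_of_eq (congrFun (congrFun h1 i) j)
  · rintro _ ⟨i, rfl⟩
    exact iff_of_eq (congrFun h2 i)
  · rintro _ ⟨i, rfl⟩ ζ
    exact opt_iff (congrFun h3 i) ζ
  · intro n J hJ ζ
    obtain ⟨I, rfl⟩ := exists_list hJ
    have := opt_iff (congrFun (congrFun h4 n) I) ζ
    simpa only [List.map_map, Function.comp_def] using this
  · intro n J hJ _ ⟨j, hj⟩
    obtain ⟨I, rfl⟩ := exists_list hJ
    subst hj
    have := congrFun (congrFun (congrFun h5 n) I) j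
    simpa only [List.map_map, Function.comp_def] using iff_of_eq this

end Pool.Agent.MP84eb94
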