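import Pool.Agent.W_MP_84eb94_lc.Code

open Set Cardinal

universe u

namespace Pool.Agent.MP84eb94

variable {Λ Ω : Type u} [LinearOrder Λ] [LinearOrder Ω] 

theorem aleph_one_pow_of_ch (h : (2 : Cardinal.{u}) ^ ℵ₀ = ℵ₁) :
    (ℵ₁ : Cardinal.{u}) ^ (ℵ₀ : Cardinal.{u}) = ℵ₁ := by
  rw [← h, ← Cardinal.power_mul, Cardinal.aleph0_mul_aleph0]

theorem mk_fun_le_of_ch (h : (2 : Cardinal.{u}) ^ ℵ₀ = ℵ₁) (A : Type) [Countable A]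
    (B : Type u) (hB : #B ≤ ℵ₁) : #(A → B) ≤ ℵ₁ := by
  rw [Cardinal.mk_arrow]
  have h1 : Cardinal.lift.{u, 0} #A ≤ ℵ₀ := by
    rw [Cardinal.lift_le_aleph0]
    exact Cardinal.mk_le_aleph0
  have h2 : Cardinal.lift.{0, u} #B ≤ ℵ₁ := by
    rw [Cardinal.lift_uzero]
    exact hB
  have h3 : (ℵ₁ : Cardinal.{u}) ≠ 0 := (Cardinal.aleph_pos 1).ne'
  calc Cardinal.lift.{0, u} #B ^ Cardinal.lift.{u, 0} #A
      ≤ (ℵ₁ : Cardinal.{u}) ^ Cardinal.lift.{u, 0} #A := Cardinal.power_le_power_right h2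
    _ ≤ (ℵ₁ : Cardinal.{u}) ^ (ℵ₀ : Cardinal.{u}) := Cardinal.power_le_power_left h3 h1
    _ = ℵ₁ := aleph_one_pow_of_ch h

theorem mk_ulift_pred_le_of_ch (h : (2 : Cardinal.{u}) ^ ℵ₀ = ℵ₁) (A : Type) [Countable A] :
    Cardinal.lift.{u, 0} #(A → Prop) ≤ (ℵ₁ : Cardinal.{u}) := by
  rw [Cardinal.mk_arrow, Cardinal.lift_power, Cardinal.lift_lift, Cardinal.lift_lift,
    Cardinal.mk_Prop, Cardinal.lift_ofNat, ← h]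
  refine Cardinal.power_le_power_left two_ne_zero ?_
  rw [Cardinal.lift_le_aleph0]
  exact Cardinal.mk_le_aleph0

theorem mk_prod_le_of_le (A : Type u) (B : Type u) (hA : #A ≤ ℵ₁) (hB : #B ≤ ℵ₁) :
    #(A × B) ≤ ℵ₁ := by
  rw [Cardinal.mk_prod, Cardinal.lift_id, Cardinal.lift_id]
  calc #A * #B ≤ ℵ₁ * ℵ₁ := mul_le_mul' hA hB
    _ = ℵ₁ := Cardinal.mul_eq_self (Cardinal.aleph0_le_aleph 1)

theorem mk_prod_le_of_le' (A : Type) (B : Type u) (hA : Cardinal.lift.{u, 0} #A ≤ ℵ₁)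
    (hB : #B ≤ ℵ₁) : #(A × B) ≤ ℵ₁ := by
  rw [Cardinal.mk_prod, Cardinal.lift_uzero]
  calc Cardinal.lift.{u, 0} #A * #B ≤ ℵ₁ * ℵ₁ := mul_le_mul' hA hB
    _ = ℵ₁ := Cardinal.mul_eq_self (Cardinal.aleph0_le_aleph 1)

theorem mk_prod_le_of_le'' (A : Type u) (B : Type) (hA : #A ≤ ℵ₁)
    (hB : Cardinal.lift.{u, 0} #B ≤ ℵ₁) : #(A × B) ≤ ℵ₁ := by
  rw [Cardinal.mk_prod, Cardinal.lift_uzero]
  calc #A * Cardinal.lift.{u, 0} #B ≤ ℵ₁ * ℵ₁ := mul_le_mul' hA hB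
    _ = ℵ₁ := Cardinal.mul_eq_self (Cardinal.aleph0_le_aleph 1)

/-- there are at most `ℵ₁` codes. Proof: under `C.ch` we have `ℵ₁ ^ ℵ₀ = ℵ₁`, and every factor of
`Code Ω` is a set of functions from a countable type to a type of cardinality at most `ℵ₁`. -/
theorem mk_code_le (C : Ctx Λ Ω) : #(Code Ω) ≤ ℵ₁ := by
  have h := C.ch
  have hΩ : #Ω ≤ ℵ₁ := C.hΩ.le
  have hO : #(Option Ω) ≤ ℵ₁ := by
    rw [Cardinal.mk_option]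
    calc #Ω + 1 ≤ ℵ₁ + ℵ₁ :=
          add_le_add hΩ (Cardinal.one_le_aleph0.trans (Cardinal.aleph0_le_aleph 1))
      _ = ℵ₁ := Cardinal.add_eq_self (Cardinal.aleph0_le_aleph 1)
  have p2 : Cardinal.lift.{u, 0} #(ℕ → ℕ → Prop) ≤ (ℵ₁ : Cardinal.{u}) := by
    rw [← Cardinal.mk_congr (Equiv.curry ℕ ℕ Prop)]
    exact mk_ulift_pred_le_of_ch h (ℕ × ℕ)
  have p6 : Cardinal.lift.{u, 0} #(ℕ → List ℕ → ℕ → Prop) ≤ (ℵ₁ : Cardinal.{u}) := by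
    have e : (ℕ × (List ℕ × ℕ) → Prop) ≃ (ℕ → List ℕ → ℕ → Prop) :=
      (Equiv.curry ℕ (List ℕ × ℕ) Prop).trans
        (Equiv.arrowCongr (Equiv.refl ℕ) (Equiv.curry (List ℕ) ℕ Prop))
    rw [← Cardinal.mk_congr e]
    exact mk_ulift_pred_le_of_ch h (ℕ × (List ℕ × ℕ))
  have p5 : #(ℕ → List ℕ → Option Ω) ≤ ℵ₁ := by
    refine mk_fun_le_of_ch h ℕ _ (mk_fun_le_of_ch h (List ℕ) _ hO)
  have p4 : #(ℕ → Option Ω) ≤ ℵ₁ := mk_fun_le_of_ch h ℕ _ hO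
  have p3 : Cardinal.lift.{u, 0} #(ℕ → Prop) ≤ (ℵ₁ : Cardinal.{u}) := mk_ulift_pred_le_of_ch h ℕ
  have p1 : #(ℕ → Ω) ≤ ℵ₁ := mk_fun_le_of_ch h ℕ _ hΩ
  refine mk_prod_le_of_le _ _ p1 ?_
  refine mk_prod_le_of_le' _ _ p2 ?_
  refine mk_prod_le_of_le' _ _ p3 ?_
  refine mk_prod_le_of_le _ _ p4 ?_
  exact mk_prod_le_of_le'' _ _ p5 p6

/-- an injection of the codes into `Ω` -/
theorem exists_code_embedding (C : Ctx Λ Ω) : ∃ f : Code Ω → Ω, Function.Injective f := by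
  have h : #(Code Ω) ≤ #Ω := (mk_code_le C).trans C.hΩ.ge
  obtain ⟨f⟩ := h
  exact ⟨f, f.injective⟩

end Pool.Agent.MP84eb94
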