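import Pool.Agent.W_MP_84eb94_lc.GoodWC
import Pool.Agent.W_MP_84eb94_lc.Closed

open Set Cardinal

universe u

namespace Pool.Agent.MP84eb94

variable {Λ Ω : Type u} [LinearOrder Λ] [LinearOrder Ω] {C : Ctx Λ Ω}

/-- merging two sequences -/
def mrg {X : Type u} (a b : ℕ → X) : ℕ → X :=
  fun n => Sum.elim a b (Equiv.natSumNatEquivNat.symm n)

theorem range_mrg {X : Type u} (a b : ℕ → X) : range (mrg a b) = range a ∪ range b := by
  unfold mrg
  ext x
  simp only [mem_range, mem_union]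
  constructor
  · rintro ⟨n, rfl⟩
    rcases Equiv.natSumNatEquivNat.symm n with m | m
    · exact Or.inl ⟨m, rfl⟩
    · exact Or.inr ⟨m, rfl⟩
  · rintro (⟨m, rfl⟩ | ⟨m, rfl⟩)
    · exact ⟨Equiv.natSumNatEquivNat (Sum.inl m), by simp⟩
    · exact ⟨Equiv.natSumNatEquivNat (Sum.inr m), by simp⟩

/-- one value can be fixed for many realizations -/
theorem decide_aux (p : Cond C) (x : Ω) (hx : x ∈ p.L) :
    ∃ u : Ω → Λ, XSim C p.a p.a p.L u p.e ∧
      ∀ a' : ℕ → List Λ → Λ,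
        (∀ v, XSim C p.a p.a p.L v u → v x = u x → XSim C a' a' p.L v u) →
          Good C (range p.l) u a' := by
  obtain ⟨γ, hγ⟩ := p.good
  have claim : ∃ η : Λ, ∀ c ∈ CR C, ∃ v : Ω → Λ, XSim C p.a p.a p.L v p.e ∧ v x = η ∧
      (∀ y ∈ p.L, v y < γ) ∧ WC C c (v '' p.L) := by
    by_contra hcon
    push Not at hcon
    choose c hc hcv using hcon
    obtain ⟨c₀, hc₀⟩ := CR_nonempty C
    let c' : Λ → List Λ → Λ := fun x0 l => match l with
      | [] => c₀ x0 []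
      | η :: l' => c η x0 l'
    have hc' : c' ∈ CR C := by
      intro y hy l
      match l with
      | [] => exact hc₀ y hy []
      | η :: l' => exact hc η y hy l'
    obtain ⟨v, hv1, hv2, hv3⟩ := hγ c' hc'
    refine hcv (v x) v hv1 rfl hv2 ?_
    intro y hy hR l' hl'
    have h := hv3 y hy hR (v x :: l') ?_
    · exact h
    · intro z hz
      rcases List.mem_cons.1 hz with rfl | hz
      · exact ⟨x, hx, rfl⟩
      · exact hl' z hz
  obtain ⟨η, hη⟩ := claim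
  obtain ⟨c₀, hc₀⟩ := CR_nonempty C
  obtain ⟨u, hu1, hu2, -, -⟩ := hη c₀ hc₀
  refine ⟨u, hu1, ?_⟩
  intro a' ha'
  refine ⟨γ, ?_⟩
  intro c hc
  obtain ⟨v, hv1, hv2, hv3, hv4⟩ := hη c hc
  exact ⟨v, ha' v (hv1.trans hu1.symm) (hv2.trans hu2.symm), hv3, hv4⟩

/-- adding a function in front -/
def cns (f : List Λ → Λ) (a : ℕ → List Λ → Λ) : ℕ → List Λ → Λ
  | 0 => f
  | n + 1 => a n

theorem range_cns (f : List Λ → Λ) (a : ℕ → List Λ → Λ) : range a ⊆ range (cns f a) := by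
  rintro _ ⟨n, rfl⟩
  exact ⟨n + 1, rfl⟩

theorem XSim.cns {a : ℕ → List Λ → Λ} {L : Set Ω} {u v : Ω → Λ} (h : XSim C a a L v u) {x : Ω}
    (hx : x ∈ L) (hv : v x = u x) : XSim C (cns (fun _ => u x) a) (cns (fun _ => u x) a) L v u := by
  refine ⟨h.lt, h.mem, h.cst, ?_, ?_⟩
  · intro n I hI ζ
    match n with
    | 0 => exact Iff.rfl
    | n + 1 => exact h.fv n I hI ζ
  · intro n I hI j hj
    match n with
    | 0 =>
      change u x = v j ↔ u x = u j
      rw [← hv]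
      exact (h.eq_iff hx hj).trans (by rw [hv])
    | n + 1 => exact h.fe n I hI j hj

/-- replacing the embedding of a condition -/
theorem le_of_same {p q : Cond C} (hl : q.l = p.l) (ha : range p.a ⊆ range q.a)
    (hs : XSim C p.a p.a p.L q.e p.e) : q ≤ p := by
  have hL : q.L = p.L := by unfold Cond.L; rw [hl]
  refine ⟨hL.ge, ha, hs, ?_⟩
  intro x hx hR w hw hlt
  exact ⟨w, hL.le hw, le_rfl, hlt⟩

theorem dec_of_mem (p : Cond C) (x : Ω) (hx : x ∈ p.L) :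
    ∃ q ≤ p, q.l = p.l ∧ Dec q x := by
  obtain ⟨u, hu, hg⟩ := decide_aux p x hx
  refine ⟨⟨p.l, u, cns (fun _ => u x) p.a, hg _ ?_⟩, le_of_same rfl (range_cns _ _) hu, rfl,
    ⟨hx, 0, rfl⟩⟩
  intro v hv hvx
  exact hv.cns hx hvx

/-- new labels for the elements of a countable set -/
theorem exists_labels (C : Ctx Λ Ω) (L : Set Ω) (hL : L.Countable) (X : Set Λ) (hX : X.Countable)
    (hX' : X.Nonempty) : ∃ (l : ℕ → Ω) (e : Ω → Λ), (∀ n, l n ∉ L) ∧ e '' range l = X := by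
  obtain ⟨δ, hδ⟩ := bddΩ C L hL
  have hinf : (Iio δ)ᶜ.Infinite := by
    intro hfin
    have h1 : (univ : Set Ω).Countable := by
      rw [← union_compl_self (Iio δ)]
      exact (C.hΩ2 δ).union hfin.countable
    rw [countable_univ_iff] at h1
    have h2 : #Ω ≤ ℵ₀ := mk_le_aleph0
    rw [C.hΩ] at h2
    exact absurd h2 (not_le.2 aleph0_lt_aleph_one)
  obtain ⟨g, hg⟩ := hX.exists_eq_range hX'
  let l : ℕ → Ω := fun n => (hinf.natEmbedding _ n : Ω)
  have hl : Function.Injective l := fun m n h =>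
    (hinf.natEmbedding _).injective (Subtype.ext h)
  refine ⟨l, Function.extend l g (fun _ => g 0), ?_, ?_⟩
  · intro n hn
    exact (hinf.natEmbedding _ n).2 (hδ _ hn)
  · rw [← range_comp]
    have : Function.extend l g (fun _ => g 0) ∘ l = g := by
      funext n
      exact hl.extend_apply _ _ _
    rw [this, hg]

/-- the operation generating closed sets -/
def gen (C : Ctx Λ Ω) (d : Λ → List Λ → Λ) : List Λ → Set Λ
  | [] => ∅
  | x :: l => {y | x ∈ C.R ∧ y = d x l}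

theorem gen_countable (d : Λ → List Λ → Λ) (l : List Λ) : (gen C d l).Countable := by
  match l with
  | [] => exact countable_empty
  | x :: l =>
    refine (countable_singleton (d x l)).mono ?_
    rintro y ⟨_, rfl⟩
    exact rfl

theorem gen_lt {d : Λ → List Λ → Λ} (hd : d ∈ CR C) {γ : Λ} {Z : Set Λ} (hZ : ∀ x ∈ Z, x < γ) :
    ∀ x ∈ clo (gen C d) Z, x < γ := by
  have : clo (gen C d) Z ⊆ Iio γ := by
    refine clo_min hZ ?_
    intro l hl
    match l with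
    | [] => exact empty_subset _
    | x :: l =>
      rintro y ⟨hR, rfl⟩
      exact (hd x hR l).trans (hl x List.mem_cons_self)
  exact this

theorem gen_wc {d : Λ → List Λ → Λ} (hd : d ∈ CR C) (Z : Set Λ) :
    WC C d (clo (gen C d) Z) := by
  intro x hx hR l hl
  refine ⟨d x l, ?_, le_rfl, hd x hR l⟩
  refine clo_closed (l := x :: l) ?_ ⟨hR, rfl⟩
  intro y hy
  rcases List.mem_cons.1 hy with rfl | hy
  · exact hx
  · exact hl y hy

theorem exists_gt_two (C : Ctx Λ Ω) (x y : Λ) : ∃ γ, x < γ ∧ y < γ := by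
  obtain ⟨γ, hγ⟩ := C.hΛ {x, y} (by
    refine lt_of_le_of_lt ?_ (aleph0_lt_aleph_one.trans C.hΛ3)
    exact (Set.toFinite ({x, y} : Set Λ)).countable.le_aleph0)
  exact ⟨γ, hγ x (by simp), hγ y (by simp)⟩

/-- the extension lemma -/
theorem extend (p : Cond C) (ξ : Λ) (x₀ : Ω) :
    ∃ q ≤ p, x₀ ∈ q.L ∧ (∃ y, Dec q y ∧ q.e y = ξ) ∧ ∃ b ∈ q.L, ∀ x ∈ p.L, q.e x < q.e b := by
  classical
  obtain ⟨d, hd1, hd2⟩ := good_of_wc C (cns (fun _ => ξ) p.a)
  obtain ⟨γ₀, hγ₀⟩ := p.good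
  obtain ⟨γ₁, h01, hξ1⟩ := exists_gt_two C γ₀ ξ
  -- the bounding function
  have hb : ∀ (x : Λ) (l : List Λ), ∃ b : Λ, x ∈ C.R → b < x ∧
      ∀ w ∈ clo (gen C (d γ₁)) ({x} ∪ {y | y ∈ l} ∪ {γ₀, ξ}), w < x → w ≤ b := by
    intro x l
    by_cases hx : x ∈ C.R
    · have hcount : (clo (gen C (d γ₁)) ({x} ∪ {y | y ∈ l} ∪ {γ₀, ξ}) ∩ Iio x).Countable := by
        refine Countable.mono inter_subset_left (clo_countable (gen_countable _) ?_)
        exact ((countable_singleton x).union l.finite_toSet.countable).union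
          (Set.toFinite _).countable
      obtain ⟨b, hb1, hb2⟩ := C.hR x hx
        ↥(clo (gen C (d γ₁)) ({x} ∪ {y | y ∈ l} ∪ {γ₀, ξ}) ∩ Iio x)
        (hcount.le_aleph0.trans aleph0_lt_aleph_one.le) Subtype.val (fun k => k.2.2)
      exact ⟨b, fun _ => ⟨hb1, fun w hw hlt => hb2 ⟨w, hw, hlt⟩⟩⟩
    · exact ⟨x, fun h => absurd h hx⟩
  choose b hb using hb
  obtain ⟨v, hv1, hv2, hv3⟩ := hγ₀ b (fun x hx l => (hb x l hx).1)
  set Z : Set Λ := v '' p.L ∪ {γ₀, ξ} with hZ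
  set X : Set Λ := clo (gen C (d γ₁)) Z with hX
  have hLc : p.L.Countable := countable_range _
  have hZX : Z ⊆ X := subset_clo
  have hXc : X.Countable :=
    clo_countable (gen_countable _) ((hLc.image v).union (Set.toFinite _).countable)
  have hXγ : ∀ x ∈ X, x < γ₁ := by
    refine gen_lt (hd1 γ₁) ?_
    rintro x (⟨y, hy, rfl⟩ | hx)
    · exact (hv2 y hy).trans h01
    · rcases hx with rfl | hx
      · exact h01
      · rw [mem_singleton_iff] at hx; rw [hx]; exact hξ1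
  have hXw : WC C (d γ₁) X := gen_wc (hd1 γ₁) Z
  -- cofinality
  have hcof : ∀ x ∈ p.L, v x ∈ C.R → ∀ w ∈ X, w < v x → ∃ y ∈ p.L, w ≤ v y ∧ v y < v x := by
    intro x hx hR w hw hlt
    obtain ⟨l, hl, hwl⟩ := clo_fin hw
    set l₁ := l.filter (fun y => decide (y ∈ v '' p.L)) with hl₁
    have hmem : w ∈ clo (gen C (d γ₁)) ({v x} ∪ {y | y ∈ l₁} ∪ {γ₀, ξ}) := by
      refine clo_mono ?_ hwl
      intro y hy
      rcases hl y hy with h | h
      · refine Or.inl (Or.inr ?_)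
        rw [mem_ofPred_eq, hl₁, List.mem_filter]
        exact ⟨hy, decide_eq_true h⟩
      · exact Or.inr h
    have hle := (hb (v x) l₁ hR).2 w hmem hlt
    obtain ⟨_, ⟨y, hy, rfl⟩, h1, h2⟩ := hv3 (v x) ⟨x, hx, rfl⟩ hR l₁ (by
      intro y hy
      rw [hl₁, List.mem_filter] at hy
      exact of_decide_eq_true hy.2)
    exact ⟨y, hy, hle.trans h1, h2⟩
  -- labels
  obtain ⟨l₁, e₁, hl₁, he₁⟩ := exists_labels C (p.L ∪ {x₀}) (hLc.union (countable_singleton _)) X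
    hXc ⟨γ₀, hZX (Or.inr (by simp))⟩
  obtain ⟨l', hl'⟩ := ((hLc.union (countable_singleton x₀)).union
    (countable_range l₁)).exists_eq_range ⟨x₀, Or.inl (Or.inr rfl)⟩
  set e' : Ω → Λ := fun y => if y ∈ p.L then v y else if y = x₀ then ξ else e₁ y with he'
  have he'L : ∀ y ∈ p.L, e' y = v y := fun y hy => if_pos hy
  have he'1 : ∀ n, e' (l₁ n) = e₁ (l₁ n) := by
    intro n
    have h := hl₁ n
    have h1 : l₁ n ∉ p.L := fun hh => h (Or.inl hh)
    have h2 : l₁ n ≠ x₀ := fun hh => h (Or.inr hh)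
    simp only [he', if_neg h1, if_neg h2]
  have himg : e' '' range l' = X := by
    rw [← hl']
    apply subset_antisymm
    · rintro _ ⟨y, (hy | rfl) | ⟨n, rfl⟩, rfl⟩
      · rw [he'L y hy]; exact hZX (Or.inl ⟨y, hy, rfl⟩)
      · by_cases hy : y ∈ p.L
        · rw [he'L y hy]; exact hZX (Or.inl ⟨y, hy, rfl⟩)
        · simp only [he', if_neg hy, if_true]
          exact hZX (Or.inr (by simp))
      · rw [he'1, ← he₁]; exact ⟨l₁ n, ⟨n, rfl⟩, rfl⟩
    · intro y hy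
      rw [← he₁] at hy
      obtain ⟨_, ⟨n, rfl⟩, rfl⟩ := hy
      exact ⟨l₁ n, Or.inr ⟨n, rfl⟩, he'1 n⟩
  have hgood : Good C (range l') e' (cns (fun _ => ξ) p.a) := by
    refine hd2 γ₁ l' e' ?_ (by rw [himg]; exact hXw)
    intro x hx
    exact hXγ _ (himg.le ⟨x, hx, rfl⟩)
  have hXlab : ∀ w ∈ X, ∃ y ∈ range l', e' y = w := by
    intro w hw
    rw [← himg] at hw
    exact hw
  refine ⟨⟨l', e', cns (fun _ => ξ) p.a, hgood⟩, ⟨?_, range_cns _ _, hv1.congr he'L, ?_⟩, ?_, ?_, ?_⟩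
  · change p.L ⊆ range l'
    rw [← hl']
    exact fun y hy => Or.inl (Or.inl hy)
  · intro x hx hR w hw hlt
    change e' x ∈ C.R at hR
    change e' w < e' x at hlt
    rw [he'L x hx] at hR hlt
    obtain ⟨y, hy, h1, h2⟩ := hcof x hx hR (e' w) (himg.le ⟨w, hw, rfl⟩) hlt
    refine ⟨y, hy, ?_, ?_⟩
    · change e' w ≤ e' y
      rw [he'L y hy]; exact h1
    · change e' y < e' x
      rw [he'L y hy, he'L x hx]; exact h2
  · change x₀ ∈ range l'
    rw [← hl']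
    exact Or.inl (Or.inr rfl)
  · obtain ⟨y, hy, hyξ⟩ := hXlab ξ (hZX (Or.inr (by simp)))
    refine ⟨y, ⟨hy, 0, ?_⟩, hyξ⟩
    change (fun _ : List Λ => ξ) = fun _ => e' y
    rw [hyξ]
  · obtain ⟨y, hy, hyγ⟩ := hXlab γ₀ (hZX (Or.inr (by simp)))
    refine ⟨y, hy, ?_⟩
    intro x hx
    change e' x < e' y
    rw [hyγ, he'L x hx]
    exact hv2 x hx

theorem dec_dense (p : Cond C) (x : Ω) : ∃ q ≤ p, Dec q x := by
  obtain ⟨q, hq, hx, -, -⟩ := extend p (p.e x) x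
  obtain ⟨r, hr, -, hd⟩ := dec_of_mem q x hx
  exact ⟨r, hr.trans hq, hd⟩

theorem exists_cond (C : Ctx Λ Ω) : Nonempty (Cond C) := by
  have hΩne : Nonempty Ω := by
    rw [← mk_ne_zero_iff, C.hΩ]
    exact (aleph0_pos.trans aleph0_lt_aleph_one).ne'
  obtain ⟨z⟩ := hΩne
  obtain ⟨d, hd1, hd2⟩ := good_of_wc C (fun _ _ => C.ι z)
  obtain ⟨γ, hγ, -⟩ := exists_gt_two C (C.ι z) (C.ι z)
  set X := clo (gen C (d γ)) {C.ι z} with hX
  have hXc : X.Countable := clo_countable (gen_countable _) (countable_singleton _)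
  obtain ⟨l, e, -, he⟩ := exists_labels C ∅ countable_empty X hXc
    ⟨C.ι z, subset_clo rfl⟩
  refine ⟨⟨l, e, _, hd2 γ l e ?_ (by rw [he]; exact gen_wc (hd1 γ) _)⟩⟩
  intro x hx
  refine gen_lt (hd1 γ) (Z := {C.ι z}) ?_ _ (he.le ⟨x, hx, rfl⟩)
  intro x hx
  rw [mem_singleton_iff] at hx
  rw [hx]
  exact hγ

end Pool.Agent.MP84eb94
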