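import Pool.Agent.W_MP_84eb94_lc.Stmt
import Pool.Agent.W_MP_84eb94_lc.BddOm

open Set Cardinal Ordinal

universe u

namespace Pool.Agent.MP84eb94

/-- The ordinal of an element of `o.ToType`. -/
noncomputable def MkCtx_o {o : Ordinal.{u}} (x : o.ToType) : Ordinal.{u} :=
  ((ToType.mk.symm x : Set.Iio o) : Ordinal.{u})

theorem MkCtx_lt {o : Ordinal.{u}} (x : o.ToType) : MkCtx_o x < o := (ToType.mk.symm x).2

theorem MkCtx_lt_iff {o : Ordinal.{u}} (x y : o.ToType) : MkCtx_o x < MkCtx_o y ↔ x < y := by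
  unfold MkCtx_o
  rw [Subtype.coe_lt_coe, OrderIso.lt_iff_lt]

theorem MkCtx_le_iff {o : Ordinal.{u}} (x y : o.ToType) : MkCtx_o x ≤ MkCtx_o y ↔ x ≤ y := by
  unfold MkCtx_o
  rw [Subtype.coe_le_coe, OrderIso.le_iff_le]

theorem MkCtx_mk {o : Ordinal.{u}} {a : Ordinal.{u}} (ha : a < o) :
    MkCtx_o (ToType.mk ⟨a, ha⟩ : o.ToType) = a := by
  unfold MkCtx_o
  rw [OrderIso.symm_apply_apply]

/-- the combinatorial context attached to a regular cardinal above `ℵ₁`, under the continuum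
hypothesis. Proof: take any injection `ι` (cardinalities), and `R` the set displayed in the
conclusion. `hR`: the values `f k` are fewer than `ℵ_ 2 ≤ α` many elements of `Iio x`, an initial
segment of order type `α.ord` with `α` regular, so their supremum is smaller than `x`. `hΛ`:
a set of fewer than `lam` elements of the regular `lam.ord` is bounded (strictly, no largest
element). `hΩ2`: proper initial segments of `ω₁` are countable. -/
theorem exists_ctx (lam : Cardinal.{u}) (hlam : lam.IsRegular) (h1 : ℵ₁ < lam)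
    (ch : (2 : Cardinal.{u}) ^ ℵ₀ = ℵ₁) :
    ∃ C : Ctx lam.ord.ToType (ω₁ : Ordinal.{u}).ToType,
      C.R = {x | ∃ α : Cardinal.{u}, α.IsRegular ∧ ℵ_ 2 ≤ α ∧
        ((ToType.mk.symm x : Set.Iio lam.ord) : Ordinal.{u}) = α.ord} := by
  have hΛc : #(lam.ord.ToType) = lam := mk_ord_toType lam
  have hΩc : #(ω₁ : Ordinal.{u}).ToType = ℵ₁ := by
    rw [Cardinal.mk_toType, Ordinal.card_omega]
  have hle : #(ω₁ : Ordinal.{u}).ToType ≤ #(lam.ord.ToType) := by
    rw [hΛc, hΩc]
    exact h1.le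
  obtain ⟨ι⟩ := (Cardinal.le_def _ _).1 hle
  have hwf : WellFoundedLT lam.ord.ToType := inferInstance
  have hwf2 : WellFoundedLT (ω₁ : Ordinal.{u}).ToType := inferInstance
  refine ⟨{ ι := ι
            R := {x | ∃ α : Cardinal.{u}, α.IsRegular ∧ ℵ_ 2 ≤ α ∧
              ((ToType.mk.symm x : Set.Iio lam.ord) : Ordinal.{u}) = α.ord}
            ι_inj := ι.injective
            hR := ?_
            hΛ := ?_
            hΛ2 := ?_
            hΛ3 := ?_
            wfΛ := hwf
            hΩ := hΩc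
            hΩ2 := ?_
            wfΩ := hwf2
            ch := ch }, rfl⟩
  · rintro x ⟨α, hα, h2, hx⟩ K hK f hf
    have hx' : MkCtx_o x = α.ord := hx
    have h3 : #K < (MkCtx_o x).cof := by
      rw [hx', hα.cof_ord]
      refine hK.trans_lt (lt_of_lt_of_le ?_ h2)
      rw [Cardinal.aleph_lt_aleph]
      exact one_lt_two
    have h4 : (⨆ k, MkCtx_o (f k)) < MkCtx_o x :=
      Ordinal.iSup_lt_of_lt_cof h3 fun k => (MkCtx_lt_iff _ _).2 (hf k)
    have h5 : (⨆ k, MkCtx_o (f k)) < lam.ord := h4.trans (MkCtx_lt x)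
    refine ⟨ToType.mk ⟨_, h5⟩, ?_, fun k => ?_⟩
    · rw [← MkCtx_lt_iff, MkCtx_mk]
      exact h4
    · rw [← MkCtx_le_iff, MkCtx_mk]
      exact Ordinal.le_iSup (fun k => MkCtx_o (f k)) k
  · intro S hS
    have h3 : #S < lam.ord.cof := by
      rw [hlam.cof_ord]
      exact hS.trans_eq hΛc
    have h4 : (⨆ x : S, (MkCtx_o (x : lam.ord.ToType) + 1)) < lam.ord :=
      Ordinal.iSup_add_one_lt_of_lt_cof h3 fun x => MkCtx_lt _
    refine ⟨ToType.mk ⟨_, h4⟩, fun x hx => ?_⟩
    rw [← MkCtx_lt_iff, MkCtx_mk]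
    have h5 := Ordinal.le_iSup (fun x : S => (MkCtx_o (x : lam.ord.ToType) + 1)) ⟨x, hx⟩
    refine lt_of_lt_of_le ?_ h5
    exact lt_add_one _
  · intro x
    exact Cardinal.mk_Iio_lt x (by simp)
  · rw [hΛc]
    exact h1
  · intro x
    have h3 := Cardinal.mk_Iio_lt x (by
      rw [hΩc, Cardinal.ord_aleph]
      simp)
    rw [← Cardinal.le_aleph0_iff_set_countable, ← Order.lt_succ_iff, Cardinal.succ_aleph0]
    exact h3.trans_eq hΩc

end Pool.Agent.MP84eb94
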