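import Pool.Agent.W_MP_84eb94_lc.Stmt

open Set Cardinal Ordinal

universe u

namespace Pool.Agent.MP84eb94

theorem NotCH_frc_of_mem {P : Type u} [Preorder P] {U : Set P} {r s : P} (hs : s ∈ U)
    (h : r ≤ s) : Frc r U :=
  fun q hq => ⟨q, le_rfl, s, hs, hq.trans h⟩

theorem NotCH_frc_mono {P : Type u} [Preorder P] {U V : Set P} {r : P} (h : Frc r U)
    (hUV : U ⊆ V) : Frc r V := by
  intro q hq
  obtain ⟨r', hr', s, hs, hrs⟩ := h q hq
  exact ⟨r', hr', s, hUV hs, hrs⟩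

theorem NotCH_frc_le {P : Type u} [Preorder P] {U : Set P} {r q : P} (h : Frc r U)
    (hq : q ≤ r) : Frc q U :=
  fun q' hq' => h q' (hq'.trans hq)

theorem NotCH_regular : (ℵ_ 2 : Cardinal.{u}).IsRegular := by
  have h := isRegular_aleph_add_one (1 : Ordinal.{u})
  rwa [one_add_one_eq_two] at h

/-- an injection of the ordinals below `ω₂` to the sets of natural numbers -/
theorem NotCH_inj (h : (2 : Cardinal.{u}) ^ ℵ₀ ≠ ℵ₁) :
    ∃ ρ : Ordinal.{u} → Set ℕ, ∀ η < (ℵ_ 2 : Cardinal.{u}).ord, ∀ η' < (ℵ_ 2 : Cardinal.{u}).ord,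
      ρ η = ρ η' → η = η' := by
  have h1 : (ℵ₁ : Cardinal.{u}) < 2 ^ (ℵ₀ : Cardinal.{u}) := by
    refine lt_of_le_of_ne ?_ (Ne.symm h)
    rw [← succ_aleph0]
    exact Order.succ_le_of_lt (cantor _)
  have h2 : (ℵ_ 2 : Cardinal.{u}) ≤ 2 ^ (ℵ₀ : Cardinal.{u}) := by
    rw [← one_add_one_eq_two, ← succ_aleph]
    exact Order.succ_le_of_lt h1
  have h3 : #((ℵ_ 2 : Cardinal.{u}).ord.ToType) ≤ #(ULift.{u} (Set ℕ)) := by
    rw [mk_ord_toType, mk_uLift, mk_set, mk_nat, lift_power, lift_aleph0, lift_two]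
    exact h2
  obtain ⟨g⟩ := Cardinal.le_def _ _ |>.1 h3
  classical
  refine ⟨fun η => if hη : η < (ℵ_ 2 : Cardinal.{u}).ord then (g (ToType.mk ⟨η, hη⟩)).down else ∅,
    fun η hη η' hη' he => ?_⟩
  simp only [dif_pos hη, dif_pos hη'] at he
  have h4 := ToType.mk.injective (g.injective (ULift.ext _ _ he))
  exact congrArg Subtype.val h4

/-- if `ℵ₂ ≤ 2 ^ ℵ₀`, then a forcing notion which adds no reals cannot change the cofinality
of `ω₂` to `ω`. Proof: suppose not `2 ^ ℵ₀ = ℵ₁`; then `ℵ_ 2 ≤ 2 ^ ℵ₀`, so there is an injection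
`ρ` of the ordinals below `ω₂ := (ℵ_ 2).ord` to `ℕ → Bool` (or to `Set ℕ`). Take `p` and `F` with
`ForcesCofinalMap p ω ω₂ F`. Let `A m`, for `m` coding the pair `(n, j)`, be the union of all
`F n η` with `η < ω₂` and `j ∈ ρ η`. By `AddsNoReals` get `q ≤ p` and the set `a`. For each `n` the
set of all `η < ω₂` such that some `r ≤ q` has `Frc r (F n η)` has at most one element: if `r ≤ q`
with `Frc r (F n η)` then, for each `j`, `j ∈ ρ η` implies `Frc r (A (n, j))`, hence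
`(n, j) ∈ a`; and if `j ∉ ρ η` and `(n, j) ∈ a` then `Frc r (A (n, j))`, so some `r' ≤ r` is below
a member of `F n η'` with `j ∈ ρ η'`, so `Frc r' (F n η')` and `Frc r' (F n η)` with `η ≠ η'`,
against the second clause of `ForcesCofinalMap`. So there is a countable set of such `η`, bounded
by some `ξ < ω₂`, against the third clause at `q`. (If some `r ≤ s` with `s ∈ U` then
`Frc r U`.) -/
theorem ch_of_forcing (P : Type u) [Preorder P] [Nonempty P] (h1 : AddsNoReals P)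
    (h2 : AlwaysCofinalMap P ω (ℵ_ 2 : Cardinal.{u}).ord) : (2 : Cardinal.{u}) ^ ℵ₀ = ℵ₁ := by
  classical
  by_contra hch
  obtain ⟨ρ, hρ⟩ := NotCH_inj hch
  obtain ⟨p0⟩ := ‹Nonempty P›
  obtain ⟨p, hp0, F, hF1, hF2, hF3⟩ := h2 p0
  set κ : Ordinal.{u} := (ℵ_ 2 : Cardinal.{u}).ord with hκ
  obtain ⟨q, hqp, a, ha⟩ := h1 (fun m => {r | ∃ η < κ, m.unpair.2 ∈ ρ η ∧
    r ∈ F (m.unpair.1 : Ordinal.{u}) η}) p
  -- the set `ρ η` is determined
  have key : ∀ (n : ℕ) (η : Ordinal.{u}), η < κ → ∀ r ≤ q, Frc r (F (n : Ordinal.{u}) η) →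
      ρ η = {j | Nat.pair n j ∈ a} := by
    intro n η hη r hr hFr
    ext j
    have haj := ha (Nat.pair n j)
    simp only [Nat.unpair_pair] at haj
    constructor
    · intro hj
      by_contra hc
      refine haj.2 hc r hr (NotCH_frc_mono hFr ?_)
      intro s hs
      exact ⟨η, hη, hj, hs⟩
    · intro hj
      by_contra hc
      obtain ⟨r', hr', s, ⟨η', hη', hj', hs⟩, hrs⟩ := haj.1 hj r hr
      have hne : η ≠ η' := by
        rintro rfl
        exact hc hj'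
      exact hF2 n (natCast_lt_omega0 n) η hη η' hη' hne r' (hr'.trans (hr.trans hqp))
        ⟨NotCH_frc_le hFr hr', NotCH_frc_of_mem hs hrs⟩
  -- the bound
  let f : ULift.{u} ℕ → Ordinal.{u} := fun n =>
    if h : ∃ η < κ, ∃ r ≤ q, Frc r (F (n.down : Ordinal.{u}) η) then h.choose else 0
  have hκpos : 0 < κ := NotCH_regular.ord_pos
  have hf : ∀ n, f n < κ := by
    intro n
    change (if h : ∃ η < κ, ∃ r ≤ q, Frc r (F (n.down : Ordinal.{u}) η) then h.choose else 0) < κ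
    split_ifs with h
    · exact h.choose_spec.1
    · exact hκpos
  have hfe : ∀ (n : ℕ) (η : Ordinal.{u}), η < κ → ∀ r ≤ q, Frc r (F (n : Ordinal.{u}) η) →
      f ⟨n⟩ = η := by
    intro n η hη r hr hFr
    have h : ∃ η < κ, ∃ r ≤ q, Frc r (F (n : Ordinal.{u}) η) := ⟨η, hη, r, hr, hFr⟩
    change (if h : ∃ η < κ, ∃ r ≤ q, Frc r (F (n : Ordinal.{u}) η) then h.choose else 0) = η
    rw [dif_pos h]
    obtain ⟨h3, r', hr', hFr'⟩ := h.choose_spec
    exact hρ _ h3 _ hη ((key n _ h3 r' hr' hFr').trans (key n η hη r hr hFr).symm)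
  have hsup : ⨆ n, f n + 1 < κ := by
    refine iSup_add_one_lt_of_lt_cof ?_ hf
    rw [hκ, NotCH_regular.cof_ord, mk_uLift, mk_nat, lift_aleph0]
    exact aleph0_lt_aleph_one.trans (aleph_lt_aleph.2 one_lt_two)
  obtain ⟨r, hr, s, ⟨i, hi, η, hη, hle, hs⟩, hrs⟩ := hF3 _ hsup q hqp
  obtain ⟨n, rfl⟩ := lt_omega0.1 hi
  have h5 := hfe n η hη r hr (NotCH_frc_of_mem hs hrs)
  have h6 : f ⟨n⟩ < ⨆ n, f n + 1 := Ordinal.lt_iSup_add_one (f := f) ⟨n⟩
  rw [h5] at h6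
  exact absurd h6 (not_lt.2 hle)

end Pool.Agent.MP84eb94
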