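import Pool.Agent.W_MP_84eb94_lc.Stmt
import Pool.Agent.W_MP_84eb94_lc.BddOm

open Set Cardinal Ordinal

universe u

namespace Pool.Agent.MP84eb94

theorem statTr_succ {a : Ordinal.{u}} (h : a < ω₁) : a + 1 < ω₁ :=
  (isSuccLimit_omega 1).add_one_lt h

theorem statTr_countable {β : Ordinal.{u}} (h : β < ω₁) : Countable (Iio β) := by
  have h1 : β.card < ℵ_ 1 := by
    rw [← lt_omega_iff_card_lt]
    exact h
  have h2 : β.card ≤ ℵ₀ := by
    rw [← Order.lt_succ_iff, succ_aleph0]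
    exact h1
  rw [← mk_le_aleph0_iff, Cardinal.mk_Iio_ordinal]
  exact lift_le_aleph0.2 h2

theorem statTr_bound (g : Ordinal.{u} → Ordinal.{u}) (hg : ∀ ζ, g ζ < ω₁) (β : Ordinal.{u})
    (h : β < ω₁) : ∃ γ < ω₁, β < γ ∧ ∀ ξ < β, g ξ < γ := by
  have := statTr_countable h
  have h1 : (⨆ ξ : Iio β, g ξ) < ω₁ := iSup_lt_omega_one fun ξ => hg ξ
  refine ⟨max (β + 1) ((⨆ ξ : Iio β, g ξ) + 1), max_lt (statTr_succ h) (statTr_succ h1),
    lt_max_of_lt_left (lt_add_one β), fun ξ hξ => lt_max_of_lt_right ?_⟩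
  exact (Ordinal.le_iSup (fun ξ : Iio β => g ξ) ⟨ξ, hξ⟩).trans_lt (lt_add_one _)

/-- stationary sets of ordinals are stationary in the combinatorial sense. Proof: given `f`,
the set of all nonzero limit `δ` below `ω₁` which are closed under (the ordinal version of) `f` is
closed and unbounded in the sense of `IsClubω₁` (iterate countably often; `ω₁` has uncountable
cofinality). -/
theorem statΩ_of_stat (S : Set Ordinal.{u}) (hS : Statω₁ S) :
    StatΩ {x : (ω₁ : Ordinal.{u}).ToType |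
      ((ToType.mk.symm x : Set.Iio (ω₁ : Ordinal.{u})) : Ordinal.{u}) ∈ S} := by
  classical
  intro f
  let g : Ordinal.{u} → Ordinal.{u} := fun ζ =>
    if h : ζ < ω₁ then ((ToType.mk.symm (f (ToType.mk ⟨ζ, h⟩)) : Set.Iio (ω₁ : Ordinal.{u})) :
      Ordinal.{u}) else 0
  have hg : ∀ ζ, g ζ < ω₁ := fun ζ => by
    by_cases h : ζ < ω₁
    · simp only [g, dif_pos h]
      exact (ToType.mk.symm (f (ToType.mk ⟨ζ, h⟩))).2
    · simp only [g, dif_neg h]
      exact omega_pos 1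
  have hclub : IsClubω₁ {δ : Ordinal.{u} | 0 < δ ∧ ∀ ζ < δ, ζ + 1 < δ ∧ g ζ < δ} := by
    constructor
    · intro ζ hζ
      choose! b hb1 hb2 hb3 using statTr_bound g hg
      let sq : ℕ → Ordinal.{u} := fun n => b^[n] (ζ + 1)
      have hsq : ∀ n, sq n < ω₁ := by
        intro n
        induction n with
        | zero => exact statTr_succ hζ
        | succ n ih =>
          simp only [sq, Function.iterate_succ_apply']
          exact hb1 _ ih
      have hs1 : ∀ n, sq n < sq (n + 1) := fun n => by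
        have := hb2 _ (hsq n)
        simp only [sq, Function.iterate_succ_apply'] at this ⊢
        exact this
      have hs2 : ∀ n, ∀ ξ < sq n, g ξ < sq (n + 1) := fun n ξ hξ => by
        have := hb3 _ (hsq n) ξ hξ
        simp only [sq, Function.iterate_succ_apply'] at this ⊢
        exact this
      have hle : ∀ n, sq n ≤ ⨆ n, sq n := fun n => Ordinal.le_iSup sq n
      have h0 : ζ < ⨆ n, sq n := (lt_add_one ζ).trans_le (hle 0)
      refine ⟨⨆ n, sq n, ⟨zero_le.trans_lt h0, fun ξ hξ => ?_⟩, h0,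
        iSup_lt_omega_one hsq⟩
      obtain ⟨n, hn⟩ := Ordinal.lt_iSup_iff.1 hξ
      exact ⟨((Order.add_one_le_of_lt hn).trans_lt (hs1 n)).trans_le (hle (n + 1)),
        (hs2 n ξ hn).trans_le (hle (n + 1))⟩
    · intro δ hδ0 hδ h
      refine ⟨hδ0, fun ζ hζ => ?_⟩
      obtain ⟨η, ⟨-, hη1⟩, hη2, hη3⟩ := h ζ hζ
      exact ⟨(hη1 ζ hη2).1.trans hη3, (hη1 ζ hη2).2.trans hη3⟩
  obtain ⟨δ, hδ, hδS, hδ0, hδD⟩ := hS _ hclub
  have hval : ∀ (z : Ordinal.{u}) (hz : z < ω₁),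
      (ToType.mk ⟨z, hz⟩ : (ω₁ : Ordinal.{u}).ToType) < ToType.mk ⟨δ, hδ⟩ ↔ z < δ := by
    intro z hz
    rw [OrderIso.lt_iff_lt]
    exact Iff.rfl
  refine ⟨ToType.mk ⟨δ, hδ⟩, ?_, ?_, ?_, ?_⟩
  · simp only [mem_ofPred_eq, OrderIso.symm_apply_apply]
    exact hδS
  · exact ⟨ToType.mk ⟨0, omega_pos 1⟩, (hval _ _).2 hδ0⟩
  · intro ζ hζ
    obtain ⟨⟨z, hz⟩, rfl⟩ := ToType.mk.surjective ζ
    have hz1 := (hval z hz).1 hζ
    have hz2 := (hδD z hz1).1
    refine ⟨ToType.mk ⟨z + 1, hz2.trans hδ⟩, (hval _ _).2 hz2, ?_⟩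
    rw [OrderIso.lt_iff_lt]
    exact lt_add_one z
  · intro ζ hζ
    obtain ⟨⟨z, hz⟩, rfl⟩ := ToType.mk.surjective ζ
    have hz1 := (hval z hz).1 hζ
    have hz2 := (hδD z hz1).2
    simp only [g] at hz2
    rw [dif_pos (show z < ω₁ from hz)] at hz2
    rw [← OrderIso.lt_iff_lt ToType.mk.symm, OrderIso.symm_apply_apply]
    exact hz2

end Pool.Agent.MP84eb94
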