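import Pool.Agent.W_MP_84eb94_lc.Key
import Pool.Agent.W_MP_84eb94_lc.MkCtx
import Pool.Agent.W_MP_84eb94_lc.StatTr
import Pool.Agent.W_MP_84eb94_lc.NotCH

open Set Cardinal Ordinal

universe u

namespace Pool.Agent.MP84eb94

/-- the ordinal represented by an element of the type of an ordinal -/
noncomputable def ov {θ : Ordinal.{u}} (x : θ.ToType) : Ordinal.{u} :=
  ((ToType.mk.symm x : Set.Iio θ) : Ordinal.{u})

theorem ov_lt {θ : Ordinal.{u}} (x : θ.ToType) : ov x < θ := (ToType.mk.symm x).2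

theorem ov_lt_ov {θ : Ordinal.{u}} {x y : θ.ToType} : ov x < ov y ↔ x < y := by
  unfold ov
  rw [Subtype.coe_lt_coe]
  exact (ToType.mk (o := θ)).symm.lt_iff_lt

theorem ov_le_ov {θ : Ordinal.{u}} {x y : θ.ToType} : ov x ≤ ov y ↔ x ≤ y := by
  rw [← not_lt, ← not_lt, ov_lt_ov]

theorem ov_inj {θ : Ordinal.{u}} {x y : θ.ToType} (h : ov x = ov y) : x = y := by
  apply le_antisymm
  · rw [← ov_le_ov, h]
  · rw [← ov_le_ov, h]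

theorem exists_ov {θ η : Ordinal.{u}} (h : η < θ) : ∃ x : θ.ToType, ov x = η :=
  ⟨ToType.mk ⟨η, h⟩, by simp [ov]⟩

section
variable {P : Type u} [Preorder P]

theorem frc_of_le {U : Set P} {r s : P} (hs : s ∈ U) (h : r ≤ s) : Frc r U :=
  fun _ hq => ⟨_, le_rfl, s, hs, hq.trans h⟩

theorem Frc.mono' {U : Set P} {r q : P} (h : Frc r U) (hq : q ≤ r) : Frc q U :=
  fun q' hq' => h q' (hq'.trans hq)
end

/-- the type of the first uncountable ordinal -/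
abbrev OmT : Type u := (ω₁ : Ordinal.{u}).ToType

theorem nat_lt_omega1 (n : ℕ) : (n : Ordinal.{u}) < ω₁ :=
  (natCast_lt_omega0 n).trans_le (omega0_le_omega 1)

/-- the element of `OmT` given by a natural number -/
noncomputable def mN (n : ℕ) : OmT.{u} := (exists_ov (nat_lt_omega1 n)).choose

theorem ov_mN (n : ℕ) : ov (mN.{u} n) = n := (exists_ov (nat_lt_omega1 n)).choose_spec

theorem mN_inj {m n : ℕ} (h : mN.{u} m = mN n) : m = n := by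
  have := congrArg ov h
  rw [ov_mN, ov_mN] at this
  exact_mod_cast this

theorem mN_lt {δ : OmT.{u}} (h0 : ∃ x, x < δ) (h1 : ∀ ζ < δ, ∃ ζ' < δ, ζ < ζ') (n : ℕ) :
    mN n < δ := by
  induction n with
  | zero =>
    obtain ⟨x, hx⟩ := h0
    refine lt_of_le_of_lt ?_ hx
    rw [← ov_le_ov, ov_mN]
    simp
  | succ n ih =>
    obtain ⟨x, hx, hlt⟩ := h1 _ ih
    refine lt_of_le_of_lt ?_ hx
    rw [← ov_le_ov, ov_mN]
    rw [← ov_lt_ov, ov_mN] at hlt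
    rw [Nat.cast_succ]
    exact Order.succ_le_of_lt hlt

variable {lam : Cardinal.{u}} (C : Ctx lam.ord.ToType OmT.{u})

theorem cond_addsNoReals : AddsNoReals (Cond C) := by
  classical
  intro A p
  obtain ⟨s₁, s₂, hs⟩ := exists_two C
  let D : OmT.{u} → Set (Cond C) := fun ζ => {r | ∀ n : ℕ, mN n = ζ →
    (Frc r (A n) ∨ ∀ s ≤ r, ¬ Frc s (A n))}
  have hD : ∀ ζ p, ∃ q ≤ p, q ∈ D ζ := by
    intro ζ r
    by_cases h : ∃ n : ℕ, mN n = ζ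
    · obtain ⟨n, rfl⟩ := h
      by_cases h2 : ∃ s ≤ r, Frc s (A n)
      · obtain ⟨s, hs, hf⟩ := h2
        refine ⟨s, hs, ?_⟩
        intro m hm
        rw [mN_inj hm]
        exact Or.inl hf
      · push Not at h2
        refine ⟨r, le_rfl, ?_⟩
        intro m hm
        rw [mN_inj hm]
        exact Or.inr h2
    · exact ⟨r, le_rfl, fun n hn => absurd ⟨n, hn⟩ h⟩
  let w : OmT.{u} → Cond C → OmT.{u} := fun ζ r => if ∃ n : ℕ, mN n = ζ ∧ Frc r (A n) then s₁ else s₂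
  have hw : ∀ n r, w (mN n) r = s₁ ↔ Frc r (A n) := by
    intro n r
    have h1 : (∃ m : ℕ, mN.{u} m = mN n ∧ Frc r (A m)) ↔ Frc r (A n) := by
      constructor
      · rintro ⟨m, hm, hf⟩
        rwa [← mN_inj hm]
      · intro hf; exact ⟨n, rfl, hf⟩
    simp only [w, h1]
    split_ifs with h2
    · exact ⟨fun _ => h2, fun _ => rfl⟩
    · exact ⟨fun h => absurd h.symm hs, fun h => absurd h h2⟩
  obtain ⟨H, -, q, hq, δ, -, hδ0, hδ1, k, hk⟩ :=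
    key D hD w (fun _ r => r.e s₁) univ (statΩ_univ C) p
  refine ⟨q, hq, {n | k (mN n) = s₁}, ?_⟩
  intro n
  obtain ⟨-, z, -, hz⟩ := hk (mN n) (mN_lt hδ0 hδ1 n)
  constructor
  · intro hn q₁ hq₁
    obtain ⟨q₂, hq₂, r, -, hrD, hle, hwr, -⟩ := hz q₁ hq₁
    have hn' : k (mN n) = s₁ := hn
    rw [hn', hw] at hwr
    obtain ⟨t, ht, s, hs', hts⟩ := hwr q₂ hle
    exact ⟨t, ht.trans hq₂, s, hs', hts⟩
  · intro hn q₁ hq₁ hf
    obtain ⟨q₂, hq₂, r, -, hrD, hle, hwr, -⟩ := hz q₁ hq₁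
    have hn' : ¬ k (mN n) = s₁ := hn
    rw [← hwr, hw] at hn'
    rcases hrD n rfl with h | h
    · exact hn' h
    · exact h q₂ hle (hf.mono' hq₂)

theorem cond_stationaryPreserving : StationaryPreserving (Cond C) := by
  classical
  intro S hS p D' hD' p₁ hp₁
  let D : OmT.{u} → Set (Cond C) := fun ζ => {r | (∀ s ≤ r, ¬ s ≤ p₁) ∨
    ∃ η : OmT.{u}, ζ < η ∧ ∃ s ∈ D' (ov η), r ≤ s}
  have hD : ∀ ζ p, ∃ q ≤ p, q ∈ D ζ := by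
    intro ζ r
    by_cases h : ∃ s ≤ r, s ≤ p₁
    · obtain ⟨s, hs, hs1⟩ := h
      obtain ⟨t, ht, s', ⟨η, hη1, hη2, hη3⟩, hts⟩ :=
        hD'.1 (ov ζ) (ov_lt ζ) s (hs1.trans hp₁)
      obtain ⟨η', rfl⟩ := exists_ov hη2
      exact ⟨t, ht.trans hs, Or.inr ⟨η', ov_lt_ov.1 hη1, s', hη3, hts⟩⟩
    · push Not at h
      exact ⟨r, le_rfl, Or.inl h⟩
  let w : OmT.{u} → Cond C → OmT.{u} := fun ζ r =>
    if h : ∃ η : OmT.{u}, ζ < η ∧ ∃ s ∈ D' (ov η), r ≤ s then h.choose else ζ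
  have hw : ∀ ζ r, (∃ η : OmT.{u}, ζ < η ∧ ∃ s ∈ D' (ov η), r ≤ s) →
      ζ < w ζ r ∧ ∃ s ∈ D' (ov (w ζ r)), r ≤ s := by
    intro ζ r h
    have : w ζ r = h.choose := dif_pos h
    rw [this]
    exact h.choose_spec
  obtain ⟨H, -, q, hq, δ, hδS, hδ0, hδ1, k, hk⟩ :=
    key D hD w (fun _ r => r.e (mN 0)) _ (statΩ_of_stat S hS) p₁
  have hδ0' : 0 < ov δ := by
    obtain ⟨x, hx⟩ := hδ0
    exact lt_of_le_of_lt (by simp) (ov_lt_ov.2 hx)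
  have hF : Frc q (D' (ov δ)) := by
    refine hD'.2 (ov δ) hδ0' (ov_lt δ) q (hq.trans hp₁) ?_
    intro ζ' hζ' q₁ hq₁
    obtain ⟨ζ, rfl⟩ := exists_ov (hζ'.trans (ov_lt δ))
    obtain ⟨hkδ, z, -, hz⟩ := hk ζ (ov_lt_ov.1 hζ')
    obtain ⟨q₂, hq₂, r, -, hrD, hle, hwr, -⟩ := hz q₁ hq₁
    rcases hrD with h | h
    · exact absurd (hq₂.trans (hq₁.trans hq)) (h q₂ hle)
    · obtain ⟨h1, s, hs, hrs⟩ := hw ζ r h
      rw [hwr] at h1 hs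
      exact ⟨q₂, hq₂, s, ⟨ov (k ζ), ov_lt_ov.2 h1, ov_lt_ov.2 hkδ, hs⟩, hle.trans hrs⟩
  obtain ⟨t, ht, s, hs, hts⟩ := hF q le_rfl
  exact ⟨t, ht.trans hq, s, ⟨ov δ, ov_lt δ, hδS, hs⟩, hts⟩

theorem cond_cof_small (x : lam.ord.ToType) (hx : x ∈ C.R) :
    AlwaysCofinalMap (Cond C) ω (ov x) := by
  classical
  intro p
  obtain ⟨q, hqp, -, ⟨y, hyD, hyx⟩, -⟩ := extend p x (mN 0)
  have hx0 : (0 : Ordinal.{u}) < ov x := by
    obtain ⟨ξ, hξ, -⟩ := C.hR x hx PEmpty (by simp) (fun k => k.elim) (fun k => k.elim)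
    exact lt_of_le_of_lt (by simp) (ov_lt_ov.2 hξ)
  let val : Cond C → ℕ → Ordinal.{u} := fun r n => if r.e (q.l n) < x then ov (r.e (q.l n)) else 0
  have hval : ∀ r n, val r n < ov x := by
    intro r n
    simp only [val]
    split_ifs with h
    · exact ov_lt_ov.2 h
    · exact hx0
  refine ⟨q, hqp, fun i η => {r | ∃ n : ℕ, (n : Ordinal.{u}) = i ∧ Dec r (q.l n) ∧ η = val r n},
    ?_, ?_, ?_⟩
  · intro i hi q₁ hq₁
    obtain ⟨n, rfl⟩ := lt_omega0.1 hi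
    obtain ⟨r, hr, hd⟩ := dec_dense q₁ (q.l n)
    exact ⟨r, hr, r, ⟨val r n, hval r n, n, rfl, hd, rfl⟩, le_rfl⟩
  · rintro i hi η hη η' hη' hne q₁ hq₁ ⟨h1, h2⟩
    obtain ⟨t, ht, s, ⟨n, hn, hsd, rfl⟩, hts⟩ := h1 q₁ le_rfl
    obtain ⟨t', ht', s', ⟨n', hn', hsd', rfl⟩, hts'⟩ := h2 t ht
    have hnn : n = n' := by
      rw [← hn'] at hn
      exact_mod_cast hn
    subst hnn
    apply hne
    have e1 := (hsd.mono (ht'.trans hts)).2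
    have e2 := (hsd'.mono hts').2
    simp only [val]
    rw [← e1, ← e2]
  · intro ξ hξ q₁ hq₁
    obtain ⟨ξ', rfl⟩ := exists_ov (hξ.trans (ov_lt x))
    have hξx : ξ' < x := ov_lt_ov.1 hξ
    obtain ⟨r₁, hr₁, -, ⟨y₁, hy₁D, hy₁⟩, -⟩ := extend q₁ ξ' (mN 0)
    have hr₁q : r₁ ≤ q := hr₁.trans hq₁
    have hyr := hyD.mono hr₁q
    have hyr' : r₁.e y = x := hyr.2.trans hyx
    obtain ⟨y₂, hy₂, h3, h4⟩ := hr₁q.2.2.2 y hyD.1 (by rw [hyr']; exact hx) y₁ hy₁D.1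
      (by rw [hyr', hy₁]; exact hξx)
    obtain ⟨r₂, hr₂, -, hd⟩ := dec_of_mem r₁ y₂ (hr₁q.1 hy₂)
    have hsim := hr₂.2.2.1
    have h5 : r₂.e y₁ ≤ r₂.e y₂ := (hsim.le_iff hy₁D.1 (hr₁q.1 hy₂)).2 h3
    have h6 : r₂.e y₂ < r₂.e y := (hsim.lt y₂ (hr₁q.1 hy₂) y (hr₁q.1 hyD.1)).2 h4
    rw [(hy₁D.mono hr₂).2, hy₁] at h5
    rw [(hyr.1.mono hr₂).2, hyr'] at h6
    obtain ⟨n, rfl⟩ := hy₂
    refine ⟨r₂, hr₂.trans hr₁, r₂, ⟨n, natCast_lt_omega0 n, val r₂ n, hval _ _, ?_, n, rfl, hd, rfl⟩,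
      le_rfl⟩
    simp only [val, if_pos h6]
    exact ov_le_ov.2 h5

theorem cond_cof_lam : AlwaysCofinalMap (Cond C) ω₁ lam.ord := by
  intro p
  refine ⟨p, le_rfl, fun i η => {r | ∃ y : OmT.{u}, ov y = i ∧ Dec r y ∧ η = ov (r.e y)},
    ?_, ?_, ?_⟩
  · intro i hi q₁ hq₁
    obtain ⟨y, rfl⟩ := exists_ov hi
    obtain ⟨r, hr, hd⟩ := dec_dense q₁ y
    exact ⟨r, hr, r, ⟨ov (r.e y), ov_lt _, y, rfl, hd, rfl⟩, le_rfl⟩
  · rintro i hi η hη η' hη' hne q₁ hq₁ ⟨h1, h2⟩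
    obtain ⟨t, ht, s, ⟨y, hy, hsd, rfl⟩, hts⟩ := h1 q₁ le_rfl
    obtain ⟨t', ht', s', ⟨y', hy', hsd', rfl⟩, hts'⟩ := h2 t ht
    have hyy : y = y' := ov_inj (hy.trans hy'.symm)
    subst hyy
    apply hne
    rw [← (hsd.mono (ht'.trans hts)).2, ← (hsd'.mono hts').2]
  · intro ξ hξ q₁ hq₁
    obtain ⟨ξ', rfl⟩ := exists_ov hξ
    obtain ⟨r₁, hr₁, -, ⟨y₁, hy₁D, hy₁⟩, -⟩ := extend q₁ ξ' (mN 0)
    exact ⟨r₁, hr₁, r₁, ⟨ov y₁, ov_lt y₁, ov (r₁.e y₁), ov_lt _, by rw [hy₁], y₁, rfl, hy₁D, rfl⟩,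
      le_rfl⟩

theorem cond_not_cof_lam : NeverCofinalMap (Cond C) ω lam.ord := by
  classical
  intro p F hF
  obtain ⟨hF1, hF2, hF3⟩ := hF
  let D : OmT.{u} → Set (Cond C) := fun ζ => {r | (∀ s ≤ r, ¬ s ≤ p) ∨
    ∀ n : ℕ, mN n = ζ → ∃ η : lam.ord.ToType, ∃ s ∈ F n (ov η), r ≤ s}
  have hD : ∀ ζ p, ∃ q ≤ p, q ∈ D ζ := by
    intro ζ r
    by_cases h : ∃ s ≤ r, s ≤ p
    · obtain ⟨s, hs, hs1⟩ := h
      by_cases hn : ∃ n : ℕ, mN n = ζ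
      · obtain ⟨n, rfl⟩ := hn
        obtain ⟨t, ht, s', ⟨η, hη1, hη2⟩, hts⟩ := hF1 n (natCast_lt_omega0 n) s hs1
        obtain ⟨η', rfl⟩ := exists_ov hη1
        refine ⟨t, ht.trans hs, Or.inr ?_⟩
        intro m hm
        rw [mN_inj hm]
        exact ⟨η', s', hη2, hts⟩
      · exact ⟨r, le_rfl, Or.inr (fun n h => absurd ⟨n, h⟩ hn)⟩
    · push Not at h
      exact ⟨r, le_rfl, Or.inl h⟩
  let v : OmT.{u} → Cond C → lam.ord.ToType := fun ζ r =>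
    if h : ∃ η : lam.ord.ToType, ∃ n : ℕ, mN n = ζ ∧ ∃ s ∈ F n (ov η), r ≤ s then h.choose
    else r.e (mN 0)
  have hv : ∀ n r, (∃ η : lam.ord.ToType, ∃ s ∈ F (n : ℕ) (ov η), r ≤ s) →
      ∃ s ∈ F n (ov (v (mN n) r)), r ≤ s := by
    intro n r h
    have h' : ∃ η : lam.ord.ToType, ∃ m : ℕ, mN.{u} m = mN n ∧ ∃ s ∈ F m (ov η), r ≤ s := by
      obtain ⟨η, s, hs⟩ := h
      exact ⟨η, n, rfl, s, hs⟩
    have e1 : v (mN n) r = h'.choose := dif_pos h'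
    obtain ⟨m, hm, hs⟩ := h'.choose_spec
    rw [e1]
    rwa [mN_inj hm] at hs
  obtain ⟨H, -, q, hq, δ, -, hδ0, hδ1, k, hk⟩ :=
    key D hD (fun _ _ => mN 0) v univ (statΩ_univ C) p
  obtain ⟨q5, hq5, -, -, b, hb, hbb⟩ := extend q (q.e (mN 0)) (mN 0)
  obtain ⟨q', hq', hq'l, hdb⟩ := dec_of_mem q5 b hb
  have hbb' : ∀ x ∈ q.L, q'.e x < q'.e b := by
    intro x hx
    exact (hq'.2.2.1.lt x (hq5.1 hx) b hb).2 (hbb x hx)
  have hq'q : q' ≤ q := hq'.trans hq5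
  obtain ⟨t, ht, s, ⟨i, hi, η, hη1, hη2, hη3⟩, hts⟩ := hF3 (ov (q'.e b)) (ov_lt _) q' (hq'q.trans hq)
  obtain ⟨n, rfl⟩ := lt_omega0.1 hi
  obtain ⟨-, z, hz, hz'⟩ := hk (mN n) (mN_lt hδ0 hδ1 n)
  obtain ⟨q₂, hq₂, r, -, hrD, hle, -, hvr⟩ := hz' t (ht.trans hq'q)
  have hq₂q' : q₂ ≤ q' := hq₂.trans ht
  have hq₂p : q₂ ≤ p := hq₂q'.trans (hq'q.trans hq)
  rcases hrD with h | h
  · exact h q₂ hle hq₂p
  · obtain ⟨s', hs', hrs'⟩ := hv n r (h n rfl)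
    rw [hvr] at hs'
    have h1 : q₂.e z < q₂.e b :=
      (hq₂q'.2.2.1.lt z (hq'q.1 hz) b hdb.1).2 (hbb' z hz)
    rw [(hdb.mono hq₂q').2] at h1
    have h2 : ov (q₂.e z) < η := (ov_lt_ov.2 h1).trans_le hη2
    exact hF2 n (natCast_lt_omega0 n) η hη1 _ (ov_lt _) h2.ne' q₂ hq₂p
      ⟨frc_of_le hη3 (hq₂.trans hts), frc_of_le hs' (hle.trans hrs')⟩

theorem cond_not_cof_large (β : Cardinal.{u}) (hβ : β.IsRegular) (hlt : lam < β) :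
    NeverCofinalMap (Cond C) ω β.ord := by
  classical
  intro p F hF
  obtain ⟨hF1, hF2, hF3⟩ := hF
  let D : OmT.{u} → Set (Cond C) := fun ζ => {r | (∀ s ≤ r, ¬ s ≤ p) ∨
    ∀ n : ℕ, mN n = ζ → ∃ η < β.ord, ∃ s ∈ F n η, r ≤ s}
  have hD : ∀ ζ p, ∃ q ≤ p, q ∈ D ζ := by
    intro ζ r
    by_cases h : ∃ s ≤ r, s ≤ p
    · obtain ⟨s, hs, hs1⟩ := h
      by_cases hn : ∃ n : ℕ, mN n = ζ
      · obtain ⟨n, rfl⟩ := hn
        obtain ⟨t, ht, s', ⟨η, hη1, hη2⟩, hts⟩ := hF1 n (natCast_lt_omega0 n) s hs1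
        refine ⟨t, ht.trans hs, Or.inr ?_⟩
        intro m hm
        rw [mN_inj hm]
        exact ⟨η, hη1, s', hη2, hts⟩
      · exact ⟨r, le_rfl, Or.inr (fun n h => absurd ⟨n, h⟩ hn)⟩
    · push Not at h
      exact ⟨r, le_rfl, Or.inl h⟩
  have hv : ∀ (n : ℕ) (r : Cond C), ∃ η < β.ord,
      (∃ η < β.ord, ∃ s ∈ F n η, r ≤ s) → ∃ s ∈ F n η, r ≤ s := by
    intro n r
    by_cases h : ∃ η < β.ord, ∃ s ∈ F n η, r ≤ s
    · obtain ⟨η, h1, h2⟩ := h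
      exact ⟨η, h1, fun _ => h2⟩
    · refine ⟨0, ?_, fun h' => absurd h' h⟩
      rw [lt_ord, card_zero]
      exact hβ.pos
  choose v hv1 hv2 using hv
  obtain ⟨H, hH, q, hq, δ, -, hδ0, hδ1, k, hk⟩ :=
    key D hD (fun _ _ => mN 0) (fun _ r => r.e (mN 0)) univ (statΩ_univ C) p
  have hinf : ℵ₀ ≤ lam := by
    have := C.hΛ3
    rw [mk_ord_toType] at this
    exact (aleph0_lt_aleph_one.trans this).le
  obtain ⟨ξ, hξ, hξv⟩ : ∃ ξ < β.ord, ∀ (n : ℕ), ∀ r ∈ H, v n r < ξ := by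
    have hcard : #(ℕ × H) < β.ord.cof := by
      rw [hβ.cof_ord, mk_prod, mk_nat, lift_aleph0, Cardinal.lift_uzero]
      refine lt_of_le_of_lt (mul_le_mul' hinf ?_) ((mul_eq_self hinf).trans_lt hlt)
      refine hH.trans ?_
      rw [mk_ord_toType]
    have h1 : (⨆ x : ℕ × H, v x.1 x.2.1) < β.ord :=
      iSup_lt_of_lt_cof hcard (fun x => hv1 _ _)
    refine ⟨Order.succ (⨆ x : ℕ × H, v x.1 x.2.1), ?_, ?_⟩
    · exact (isSuccLimit_ord hβ.aleph0_le).succ_lt h1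
    · intro n r hr
      refine Order.lt_succ_of_le ?_
      exact Ordinal.le_iSup (fun x : ℕ × H => v x.1 x.2.1) (n, ⟨r, hr⟩)
  obtain ⟨t, ht, s, ⟨i, hi, η, hη1, hη2, hη3⟩, hts⟩ := hF3 ξ hξ q hq
  obtain ⟨n, rfl⟩ := lt_omega0.1 hi
  obtain ⟨-, z, hz, hz'⟩ := hk (mN n) (mN_lt hδ0 hδ1 n)
  obtain ⟨q₂, hq₂, r, hrH, hrD, hle, -, -⟩ := hz' t ht
  have hq₂p : q₂ ≤ p := hq₂.trans (ht.trans hq)
  rcases hrD with h | h
  · exact h q₂ hle hq₂p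
  · obtain ⟨s', hs', hrs'⟩ := hv2 n r (h n rfl)
    have h2 : v n r < η := (hξv n r hrH).trans_le hη2
    exact hF2 n (natCast_lt_omega0 n) η hη1 _ (hv1 n r) h2.ne' q₂ hq₂p
      ⟨frc_of_le hη3 (hq₂.trans hts), frc_of_le hs' (hle.trans hrs')⟩

/-- for every regular `lam` above `ω₂`, the principle `Nb₂(lam)` is equivalent to the continuum
hypothesis -/
theorem nb_iff (lam : Cardinal.{u}) (hlam : lam.IsRegular) (h2 : ℵ_ 2 < lam) :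
    Nb₂ lam ↔ (2 : Cardinal.{u}) ^ ℵ₀ = ℵ₁ := by
  constructor
  · rintro ⟨P, hP, hP', -, h1, h3, -⟩
    exact ch_of_forcing P h1 (h3 _ NotCH_regular le_rfl h2)
  · intro ch
    have h1 : ℵ₁ < lam := lt_trans (aleph_lt_aleph.2 one_lt_two) h2
    obtain ⟨C, hR⟩ := exists_ctx lam hlam h1 ch
    refine ⟨Cond C, inferInstance, exists_cond C, cond_stationaryPreserving C,
      cond_addsNoReals C, ?_, ⟨cond_cof_lam C, cond_not_cof_lam C⟩, cond_not_cof_large C⟩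
    intro α hα h2α hαl
    obtain ⟨x, hx⟩ := exists_ov (ord_lt_ord.2 hαl)
    rw [← hx]
    refine cond_cof_small C x ?_
    rw [hR]
    exact ⟨α, hα, h2α, hx⟩

end Pool.Agent.MP84eb94
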