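import Pool.Agent.W_MP_84eb94_lc.Clo

open Set Cardinal

universe u

namespace Pool.Agent.MP84eb94

variable {Λ Ω : Type u} [LinearOrder Λ] [LinearOrder Ω]

theorem Gam_card (C : Ctx Λ Ω) (c : List Λ → Set Λ) (hc : ∀ l, (c l).Countable) (γ : Λ) :
    #(⋃ l : List (Iio γ), c (l.map Subtype.val) : Set Λ) < #Λ := by
  have h0 : ℵ₀ < #Λ := lt_trans Cardinal.aleph0_lt_aleph_one C.hΛ3
  have h1 : #(List (Iio γ)) < #Λ :=
    lt_of_le_of_lt (Cardinal.mk_list_le_max _) (max_lt h0 (C.hΛ2 γ))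
  refine lt_of_le_of_lt (Cardinal.mk_iUnion_le_sum_mk) ?_
  have h2 : Cardinal.sum (fun l : List (Iio γ) => #(c (l.map Subtype.val))) ≤
      #(List (Iio γ)) * ℵ₀ := by
    rw [← Cardinal.sum_const']
    exact Cardinal.sum_le_sum _ _ fun l => (Cardinal.le_aleph0_iff_set_countable).2 (hc _)
  exact lt_of_le_of_lt h2 (Cardinal.mul_lt_of_lt h0.le h1 h0)

theorem Gam_step (C : Ctx Λ Ω) (c : List Λ → Set Λ) (hc : ∀ l, (c l).Countable) (γ : Λ) :
    ∃ δ, γ < δ ∧ ∀ l : List Λ, (∀ y ∈ l, y < γ) → ∀ z ∈ c l, z < δ := by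
  have h0 : ℵ₀ < #Λ := lt_trans Cardinal.aleph0_lt_aleph_one C.hΛ3
  have h1 := Gam_card C c hc γ
  have h2 : #((⋃ l : List (Iio γ), c (l.map Subtype.val)) ∪ {γ} : Set Λ) < #Λ := by
    refine lt_of_le_of_lt (Cardinal.mk_union_le _ _) ?_
    refine Cardinal.add_lt_of_lt h0.le h1 ?_
    rw [Cardinal.mk_singleton]
    exact lt_trans Cardinal.one_lt_aleph0 h0
  obtain ⟨δ, hδ⟩ := C.hΛ _ h2
  refine ⟨δ, hδ γ (Or.inr rfl), fun l hl z hz => hδ z (Or.inl ?_)⟩
  rw [Set.mem_iUnion]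
  refine ⟨l.attachWith (fun y => y ∈ Iio γ) hl, ?_⟩
  have : (l.attachWith (fun y => y ∈ Iio γ) hl).map Subtype.val = l := by
    simp
  rw [this]
  exact hz

/-- Proof: for `γ` in `Λ` the set of all `z` in some `c l` with `l` a list of elements below `γ`
has cardinality less than `#Λ` (there are fewer than `#Λ` lists by `C.hΛ2`, and `c l` is countable),
so by `C.hΛ` it is bounded by some `f γ`, and we can take `γ < f γ`. Start with `γ 0` above `Z`
(`C.hΛ`), put `γ (n + 1) = f (γ n)`, and let `γ` be the least upper bound of the `γ n`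
(bounded by `C.hΛ`, least by `C.wfΛ`). A list of elements below `γ` is a list of elements below
some `γ n`. -/
theorem exists_gamma (C : Ctx Λ Ω) (c : List Λ → Set Λ) (hc : ∀ l, (c l).Countable) (Z : Set Λ)
    (hZ : #Z < #Λ) :
    ∃ γ, (∀ x ∈ Z, x < γ) ∧ ∀ l : List Λ, (∀ y ∈ l, y < γ) → ∀ z ∈ c l, z < γ := by
  have h0 : ℵ₀ < #Λ := lt_trans Cardinal.aleph0_lt_aleph_one C.hΛ3
  obtain ⟨γ₀, hγ₀⟩ := C.hΛ Z hZ
  choose f hf1 hf2 using Gam_step C c hc
  let g : ℕ → Λ := fun n => f^[n] γ₀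
  have hgs : ∀ n, g (n + 1) = f (g n) := fun n => Function.iterate_succ_apply' f n γ₀
  have hmono : StrictMono g := strictMono_nat_of_lt_succ fun n => by
    rw [hgs]; exact hf1 _
  have hne : ({y | ∀ n, g n < y} : Set Λ).Nonempty := by
    have : #(range g) < #Λ :=
      lt_of_le_of_lt (Cardinal.le_aleph0_iff_set_countable.2 (Set.countable_range g)) h0
    obtain ⟨δ, hδ⟩ := C.hΛ _ this
    exact ⟨δ, fun n => hδ _ ⟨n, rfl⟩⟩
  have hwf : WellFounded ((· < ·) : Λ → Λ → Prop) := C.wfΛ.wf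
  have hmin : ∀ n, g n < hwf.min _ hne := hwf.min_mem _ hne
  have hlt : ∀ y, y < hwf.min _ hne → ∃ n, y < g n := by
    intro y hy
    by_contra hcon
    push Not at hcon
    have : y ∈ ({y | ∀ n, g n < y} : Set Λ) := fun n =>
      lt_of_lt_of_le (hmono (Nat.lt_succ_self n)) (hcon (n + 1))
    exact hwf.not_lt_min _ this hy
  refine ⟨hwf.min _ hne, fun x hx => lt_trans (hγ₀ x hx) (hmin 0), ?_⟩
  intro l hl z hz
  have hn : ∃ n, ∀ y ∈ l, y < g n := by
    clear hz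
    induction l with
    | nil => exact ⟨0, by simp⟩
    | cons a l ih =>
      obtain ⟨n, hn⟩ := ih fun y hy => hl y (List.mem_cons_of_mem _ hy)
      obtain ⟨m, hm⟩ := hlt a (hl a List.mem_cons_self)
      refine ⟨max n m, fun y hy => ?_⟩
      rcases List.mem_cons.1 hy with rfl | hy
      · exact lt_of_lt_of_le hm (hmono.monotone (le_max_right _ _))
      · exact lt_of_lt_of_le (hn y hy) (hmono.monotone (le_max_left _ _))
  obtain ⟨n, hn⟩ := hn
  have := hf2 (g n) l hn z hz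
  rw [← hgs] at this
  exact lt_trans this (hmin _)

end Pool.Agent.MP84eb94
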