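import Pool.Agent.W_MP_84eb94_lc.Base

open Set Cardinal

universe u

namespace Pool.Agent.MP84eb94

variable {Λ Ω : Type u} [LinearOrder Λ] [LinearOrder Ω] {C : Ctx Λ Ω}

/-- finitely many labels below `δ` are decided by a late member of the sequence -/
theorem Gen_dec_list (r : ℕ → Cond C) (hr : Antitone r) (δ : Ω)
    (hdec : ∀ y < δ, ∃ n, Dec (r n) y) (n : ℕ) (I : List Ω) (hI : ∀ x ∈ I, x < δ) :
    ∃ m, n ≤ m ∧ ∀ x ∈ I, Dec (r m) x := by
  induction I with
  | nil => exact ⟨n, le_rfl, by simp⟩
  | cons z I ih =>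
    obtain ⟨m, hm, h⟩ := ih fun x hx => hI x (List.mem_cons_of_mem _ hx)
    obtain ⟨m', hm'⟩ := hdec z (hI z List.mem_cons_self)
    refine ⟨max m m', hm.trans (le_max_left _ _), ?_⟩
    intro x hx
    rcases List.mem_cons.1 hx with rfl | hx
    · exact (hm'.mono (hr (le_max_right _ _))).1
    · exact ((h x hx).mono (hr (le_max_left _ _))).1

/-- the limit embedding of a descending sequence which decides all labels below `δ`.
Proof: `e y` is the common value of all `(r n).e y` with `Dec (r n) y` (see `Dec.mono`). For the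
second claim, a finite list of labels in `(r n).L` (all below `δ`) is decided by some `r m` with
`n ≤ m`, and `(r m).e` is similar to `(r n).e` on `(r n).L` because `r m ≤ r n`. The third claim is
the last clause of `r m ≤ r n`, where `m` decides `x` and `w` (so that `w ∈ (r m).L`), and the
label `y` obtained there, which need not be decided by `r m`, is decided by a later `r m'`; use the
similarity of `(r m').e` and `(r m).e` on `(r m).L`. -/
theorem limit_emb (r : ℕ → Cond C) (hr : Antitone r) (δ : Ω) (hL : ∀ n, (r n).L ⊆ Iio δ)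
    (hdec : ∀ y < δ, ∃ n, Dec (r n) y) :
    ∃ e : Ω → Λ, (∀ n y, Dec (r n) y → e y = (r n).e y) ∧
      (∀ n, XSim C (r n).a (r n).a (r n).L e (r n).e) ∧
      ∀ n, ∀ x ∈ (r n).L, e x ∈ C.R → ∀ w < δ, e w < e x → ∃ y ∈ (r n).L, e w ≤ e y ∧ e y < e x := by
  classical
  have hcomp : ∀ n m y, Dec (r n) y → Dec (r m) y → (r n).e y = (r m).e y := by
    intro n m y hn hm
    rcases le_total n m with h | h
    · exact (hn.mono (hr h)).2.symm
    · exact (hm.mono (hr h)).2
  let e : Ω → Λ := fun y => if h : ∃ n, Dec (r n) y then (r h.choose).e y else (r 0).e y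
  have he : ∀ n y, Dec (r n) y → e y = (r n).e y := by
    intro n y hn
    have h : ∃ n, Dec (r n) y := ⟨n, hn⟩
    have h1 : e y = (r h.choose).e y := dif_pos h
    rw [h1]
    exact hcomp _ _ y h.choose_spec hn
  have hmap : ∀ m (I : List Ω), (∀ x ∈ I, Dec (r m) x) → I.map e = I.map (r m).e := by
    intro m I hI
    exact List.map_congr_left fun x hx => he m x (hI x hx)
  have hsim : ∀ n m, n ≤ m → XSim C (r n).a (r n).a (r n).L (r m).e (r n).e :=
    fun n m h => (Cond.le_iff.1 (hr h)).2.2.1
  refine ⟨e, he, ?_, ?_⟩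
  · intro n
    refine ⟨?_, ?_, ?_, ?_, ?_⟩
    · intro x hx y hy
      obtain ⟨m, hm, hd⟩ := Gen_dec_list r hr δ hdec n [x, y] (by
        intro z hz
        rcases List.mem_cons.1 hz with rfl | hz
        · exact hL n hx
        · rw [List.mem_singleton.1 hz]
          exact hL n hy)
      rw [he m x (hd x (by simp)), he m y (hd y (by simp))]
      exact (hsim n m hm).lt x hx y hy
    · intro x hx
      obtain ⟨m, hm, hd⟩ := Gen_dec_list r hr δ hdec n [x] (by
        intro z hz
        rw [List.mem_singleton.1 hz]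
        exact hL n hx)
      rw [he m x (hd x (by simp))]
      exact (hsim n m hm).mem x hx
    · intro x hx ζ
      obtain ⟨m, hm, hd⟩ := Gen_dec_list r hr δ hdec n [x] (by
        intro z hz
        rw [List.mem_singleton.1 hz]
        exact hL n hx)
      rw [he m x (hd x (by simp))]
      exact (hsim n m hm).cst x hx ζ
    · intro k I hI ζ
      obtain ⟨m, hm, hd⟩ := Gen_dec_list r hr δ hdec n I (fun z hz => hL n (hI z hz))
      rw [hmap m I hd]
      exact (hsim n m hm).fv k I hI ζ
    · intro k I hI j hj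
      obtain ⟨m, hm, hd⟩ := Gen_dec_list r hr δ hdec n (j :: I) (by
        intro z hz
        rcases List.mem_cons.1 hz with rfl | hz
        · exact hL n hj
        · exact hL n (hI z hz))
      rw [hmap m I (fun x hx => hd x (List.mem_cons_of_mem _ hx)), he m j (hd j List.mem_cons_self)]
      exact (hsim n m hm).fe k I hI j hj
  · intro n x hx hxR w hw hlt
    obtain ⟨m, hm, hd⟩ := Gen_dec_list r hr δ hdec n [x, w] (by
      intro z hz
      rcases List.mem_cons.1 hz with rfl | hz
      · exact hL n hx
      · rw [List.mem_singleton.1 hz]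
        exact hw)
    have hdx : Dec (r m) x := hd x (by simp)
    have hdw : Dec (r m) w := hd w (by simp)
    rw [he m x hdx] at hxR hlt
    rw [he m w hdw] at hlt
    obtain ⟨g1, -, -, g4⟩ := Cond.le_iff.1 (hr hm)
    obtain ⟨y, hy, hwy, hyx⟩ := g4 x hx hxR w hdw.1 hlt
    refine ⟨y, hy, ?_⟩
    obtain ⟨m', hm', hd'⟩ := Gen_dec_list r hr δ hdec m [x, w, y] (by
      intro z hz
      simp only [List.mem_cons, List.not_mem_nil, or_false] at hz
      rcases hz with rfl | rfl | rfl
      · exact hL n hx
      · exact hw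
      · exact hL n hy)
    rw [he m' x (hd' x (by simp)), he m' w (hd' w (by simp)), he m' y (hd' y (by simp))]
    have hs := hsim m m' hm'
    exact ⟨(hs.le_iff hdw.1 (g1 hy)).2 hwy, (hs.lt y (g1 hy) x hdx.1).2 hyx⟩

end Pool.Agent.MP84eb94
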