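import Pool.Agent.W_MP_84eb94_lc.CodeCard

open Set Cardinal

universe u

namespace Pool.Agent.MP84eb94

variable {Λ Ω : Type u} [LinearOrder Λ] [LinearOrder Ω]

/-- some bounding function -/
theorem CR_nonempty (C : Ctx Λ Ω) : (CR C).Nonempty := by
  have h : ∀ x : Λ, ∃ y : Λ, x ∈ C.R → y < x := by
    intro x
    by_cases hx : x ∈ C.R
    · obtain ⟨ξ, hξ, _⟩ := C.hR x hx PEmpty (by simp) (fun k => k.elim) (fun k => k.elim)
      exact ⟨ξ, fun _ => hξ⟩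
    · exact ⟨x, fun h => absurd h hx⟩
  choose f hf using h
  exact ⟨fun x _ => f x, fun x hx _ => hf x hx⟩

/-- the level `γ` of goodness -/
def GoodAt (C : Ctx Λ Ω) (γ : Λ) (L : Set Ω) (e : Ω → Λ) (a : ℕ → List Λ → Λ) : Prop :=
  ∀ c ∈ CR C, ∃ v : Ω → Λ, XSim C a a L v e ∧ (∀ x ∈ L, v x < γ) ∧ WC C c (v '' L)

/-- If `X` is bounded by `γ` and weakly closed under `d γ`, then every labelling of `X` is good. -/
theorem good_of_wc' (C : Ctx Λ Ω) (a : ℕ → List Λ → Λ) : ∃ d : Λ → Λ → List Λ → Λ,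
    (∀ γ, d γ ∈ CR C) ∧ ∀ (γ : Λ) (l : ℕ → Ω) (e : Ω → Λ), (∀ x ∈ range l, e x < γ) →
      WC C (d γ) (e '' range l) → GoodAt C γ (range l) e a := by
  have h1 : ∀ (γ : Λ) (k : Code Ω), ∃ c ∈ CR C, ∀ (l : ℕ → Ω) (e : Ω → Λ), code C l e a = k →
      ¬ GoodAt C γ (range l) e a → ∀ v : Ω → Λ, XSim C a a (range l) v e →
        (∀ x ∈ range l, v x < γ) → ¬ WC C c (v '' range l) := by
    intro γ k
    by_cases h : ∃ (l : ℕ → Ω) (e : Ω → Λ), code C l e a = k ∧ ¬ GoodAt C γ (range l) e a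
    · obtain ⟨l₀, e₀, hk, hg⟩ := h
      unfold GoodAt at hg
      push Not at hg
      obtain ⟨c, hc, hcv⟩ := hg
      refine ⟨c, hc, ?_⟩
      intro l e hle _ v hv hb
      obtain ⟨rfl, hs⟩ := code_eq (hle.trans hk.symm)
      exact hcv v (hv.trans hs) hb
    · obtain ⟨c, hc⟩ := CR_nonempty C
      exact ⟨c, hc, fun l e hle hg => absurd ⟨l, e, hle, hg⟩ h⟩
  choose c hc hcv using h1
  have h2 : ∀ (γ x : Λ) (l : List Λ), ∃ ξ : Λ, x ∈ C.R → ξ < x ∧ ∀ k, c γ k x l ≤ ξ := by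
    intro γ x l
    by_cases hx : x ∈ C.R
    · obtain ⟨ξ, hξ, h⟩ := C.hR x hx (Code Ω) (mk_code_le C) (fun k => c γ k x l)
        (fun k => hc γ k x hx l)
      exact ⟨ξ, fun _ => ⟨hξ, h⟩⟩
    · exact ⟨x, fun h => absurd h hx⟩
  choose d hd using h2
  refine ⟨d, fun γ x hx l => (hd γ x l hx).1, ?_⟩
  intro γ l e hb hw
  by_contra hg
  refine hcv γ (code C l e a) l e rfl hg e (XSim.refl _ _ _) hb ?_
  intro x hx hR l' hl'
  obtain ⟨ξ, hξ, h3, h4⟩ := hw x hx hR l' hl'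
  exact ⟨ξ, hξ, ((hd γ x l' hR).2 _).trans h3, h4⟩

/-- If `X` is bounded by `γ` and weakly closed under `d γ`, then every labelling of `X` is good. -/
theorem good_of_wc (C : Ctx Λ Ω) (a : ℕ → List Λ → Λ) : ∃ d : Λ → Λ → List Λ → Λ,
    (∀ γ, d γ ∈ CR C) ∧ ∀ (γ : Λ) (l : ℕ → Ω) (e : Ω → Λ), (∀ x ∈ range l, e x < γ) →
      WC C (d γ) (e '' range l) → Good C (range l) e a := by
  obtain ⟨d, h1, h2⟩ := good_of_wc' C a
  exact ⟨d, h1, fun γ l e hb hw => ⟨γ, h2 γ l e hb hw⟩⟩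

end Pool.Agent.MP84eb94
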