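import Mathlib

open Set Cardinal

universe u

namespace Pool.Agent.MP84eb94

/-- a descending sequence inside a countable set which meets countably many sets -/
theorem exists_seq {P : Type u} [Preorder P] {Y T : Type u} (g : Y → P) (X : Set Y)
    (T' : Set T) (hT : T'.Countable) (DD : T → Set P) (x₀ : Y) (hx₀ : x₀ ∈ X)
    (h : ∀ t ∈ T', ∀ x ∈ X, ∃ x' ∈ X, g x' ≤ g x ∧ g x' ∈ DD t) :
    ∃ x : ℕ → Y, x 0 = x₀ ∧ (∀ n, x n ∈ X) ∧ Antitone (fun n => g (x n)) ∧
      ∀ t ∈ T', ∃ n, g (x n) ∈ DD t := by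
  classical
  rcases T'.eq_empty_or_nonempty with he | hne
  · refine ⟨fun _ => x₀, rfl, fun _ => hx₀, fun _ _ _ => le_rfl, fun t ht => ?_⟩
    rw [he] at ht
    exact absurd ht (Set.notMem_empty t)
  · obtain ⟨f, hf⟩ := hT.exists_eq_range hne
    have hfm : ∀ n, f n ∈ T' := fun n => by rw [hf]; exact ⟨n, rfl⟩
    choose! s hs using h
    let y : ℕ → X := fun n => Nat.rec (motive := fun _ => X) ⟨x₀, hx₀⟩
      (fun n x => ⟨s (f n) x.1, (hs (f n) (hfm n) x.1 x.2).1⟩) n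
    have hy : ∀ n, (y (n + 1)).1 = s (f n) (y n).1 := fun n => rfl
    refine ⟨fun n => (y n).1, rfl, fun n => (y n).2, ?_, fun t ht => ?_⟩
    · apply antitone_nat_of_succ_le
      intro n
      show g (y (n + 1)).1 ≤ g (y n).1
      rw [hy]
      exact (hs (f n) (hfm n) (y n).1 (y n).2).2.1
    · rw [hf] at ht
      obtain ⟨n, rfl⟩ := ht
      refine ⟨n + 1, ?_⟩
      show g (y (n + 1)).1 ∈ DD (f n)
      rw [hy]
      exact (hs (f n) (hfm n) (y n).1 (y n).2).2.2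

end Pool.Agent.MP84eb94
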