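import Pool.Agent.W_MP_84eb94_lc.Gen
import Pool.Agent.W_MP_84eb94_lc.Seq
import Pool.Agent.W_MP_84eb94_lc.Amalg

open Set Cardinal

universe u

namespace Pool.Agent.MP84eb94

variable {Λ Ω : Type u} [LinearOrder Λ] [LinearOrder Ω] {C : Ctx Λ Ω}

/-- the dense sets which are met by the generic sequence -/
def DD (D : Ω → Set (Cond C)) : Ω ⊕ Ω ⊕ Λ → Set (Cond C)
  | Sum.inl ζ => D ζ
  | Sum.inr (Sum.inl y) => {r | Dec r y}
  | Sum.inr (Sum.inr ξ) => {r | ∃ y, Dec r y ∧ r.e y = ξ}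

theorem DD_dense (D : Ω → Set (Cond C)) (hD : ∀ ζ p, ∃ q ≤ p, q ∈ D ζ) (i : Ω ⊕ Ω ⊕ Λ)
    (p : Cond C) : ∃ q ≤ p, q ∈ DD D i := by
  rcases i with ζ | y | ξ
  · exact hD ζ p
  · exact dec_dense p y
  · have hΩne : Nonempty Ω := by
      rw [← mk_ne_zero_iff, C.hΩ]
      exact (aleph0_pos.trans aleph0_lt_aleph_one).ne'
    obtain ⟨q, hq, -, h, -⟩ := extend p ξ hΩne.some
    exact ⟨q, hq, h⟩

/-- the index `i` lies in the set `X` -/
def IdxIn (C : Ctx Λ Ω) (X : Set Λ) : Ω ⊕ Ω ⊕ Λ → Prop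
  | Sum.inl ζ => C.ι ζ ∈ X
  | Sum.inr (Sum.inl y) => C.ι y ∈ X
  | Sum.inr (Sum.inr ξ) => ξ ∈ X

theorem IdxIn_countable (C : Ctx Λ Ω) (X : Set Λ) (hX : X.Countable) :
    {i | IdxIn C X i}.Countable := by
  have h1 : (C.ι ⁻¹' X).Countable := hX.preimage C.ι_inj
  refine Countable.mono (s₂ := Sum.inl '' (C.ι ⁻¹' X) ∪ (Sum.inr ∘ Sum.inl) '' (C.ι ⁻¹' X) ∪
    (Sum.inr ∘ Sum.inr) '' X) ?_ (((h1.image _).union (h1.image _)).union (hX.image _))
  rintro (ζ | y | ξ) h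
  · exact Or.inl (Or.inl ⟨ζ, h, rfl⟩)
  · exact Or.inl (Or.inr ⟨y, h, rfl⟩)
  · exact Or.inr ⟨ξ, h, rfl⟩

theorem mk_idx (C : Ctx Λ Ω) : #(List (Ω ⊕ Ω ⊕ Λ)) = #Λ := by
  have hinf : ℵ₀ ≤ #Λ := (aleph0_lt_aleph_one.trans C.hΛ3).le
  have h1 : #(Ω ⊕ Ω ⊕ Λ) = #Λ := by
    rw [mk_sum, mk_sum, C.hΩ]
    simp only [lift_id]
    have h2 : (ℵ₁ : Cardinal.{u}) ≤ #Λ := C.hΛ3.le
    rw [add_eq_right hinf h2, add_eq_right hinf h2]
  have : Infinite (Ω ⊕ Ω ⊕ Λ) := by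
    rw [Cardinal.infinite_iff, h1]; exact hinf
  rw [mk_list_eq_mk, h1]

/-- two different elements of `Ω` -/
theorem exists_two (C : Ctx Λ Ω) : ∃ a b : Ω, a ≠ b := by
  have hΩne : Nontrivial Ω := by
    rw [← Cardinal.one_lt_iff_nontrivial, C.hΩ]
    exact one_lt_aleph0.trans aleph0_lt_aleph_one
  exact exists_pair_ne Ω

/-- the key lemma -/
theorem key (D : Ω → Set (Cond C)) (hD : ∀ ζ p, ∃ q ≤ p, q ∈ D ζ) (w : Ω → Cond C → Ω)
    (v : Ω → Cond C → Λ) (S : Set Ω) (hS : StatΩ S) (p : Cond C) :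
    ∃ H : Set (Cond C), #H ≤ #Λ ∧ ∃ q ≤ p, ∃ δ ∈ S, (∃ x, x < δ) ∧
      (∀ ζ < δ, ∃ ζ' < δ, ζ < ζ') ∧ ∃ k : Ω → Ω, ∀ ζ < δ, k ζ < δ ∧ ∃ z ∈ q.L,
        ∀ q₁ ≤ q, ∃ q₂ ≤ q₁, ∃ r ∈ H, r ∈ D ζ ∧ q₂ ≤ r ∧ w ζ r = k ζ ∧ v ζ r = q₂.e z := by
  classical
  obtain ⟨s₁, s₂, hs⟩ := exists_two C
  set z₀ : Λ := C.ι s₁ with hz₀
  obtain ⟨f, hf⟩ := exists_code_embedding C
  choose h hh1 hh2 using DD_dense D hD
  obtain ⟨E'⟩ := Cardinal.eq.1 (mk_idx C)
  let E : Λ ≃ List (Ω ⊕ Ω ⊕ Λ) := E'.symm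
  let g : Λ → Cond C := fun x => (E x).foldr h p
  have hgE : ∀ i x, g (E.symm (i :: E x)) = h i (g x) := by
    intro i x
    simp only [g, Equiv.apply_symm_apply, List.foldr_cons]
  have hg0 : g (E.symm []) = p := by
    simp only [g, Equiv.apply_symm_apply, List.foldr_nil]
  -- the functions
  let cF : List Λ → Λ := fun1 z₀ (fun x => C.ι (f (code C (g x).l (g x).e (g x).a)))
  let dF : List Λ → Λ := fun2 z₀ (fun x y => if ∃ ζ, C.ι ζ = y ∧ g x ∈ D ζ then C.ι s₁ else C.ι s₂)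
  let wF : List Λ → Λ := fun2 z₀ (fun x y => match opt C y with
    | some ζ => C.ι (w ζ (g x))
    | none => z₀)
  let vF : List Λ → Λ := fun2 z₀ (fun x y => match opt C y with
    | some ζ => v ζ (g x)
    | none => z₀)
  let b : ℕ → List Λ → Λ := fun n => match n with
    | 0 => cF
    | 1 => dF
    | 2 => wF
    | _ => vF
  let A : ℕ → List Λ → Λ := mrg (fam z₀ g) (mrg b p.a)
  have hA : range A = range (fam z₀ g) ∪ (range b ∪ range p.a) := by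
    simp only [A, range_mrg]
  have hAf : range (fam z₀ g) ⊆ range A := by rw [hA]; exact subset_union_left
  have hAb : ∀ n, b n ∈ range A := by
    intro n; rw [hA]; exact Or.inr (Or.inl ⟨n, rfl⟩)
  have hAp : range p.a ⊆ range A := by
    rw [hA]; exact subset_union_right.trans subset_union_right
  obtain ⟨d, hd1, hd2⟩ := good_of_wc C A
  -- closure
  let c : List Λ → Set Λ := fun l => {E.symm []} ∪
    {y | ∃ x ∈ l, ∃ m ∈ (g x).L, y = C.ι m ∨ y = (g x).e m} ∪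
    {y | ∃ x ∈ l, ∃ i, IdxIn C {t | t ∈ l} i ∧ y = E.symm (i :: E x)} ∪ range (fun n => A n l)
  have hcc : ∀ l, (c l).Countable := by
    intro l
    refine (((countable_singleton _).union ?_).union ?_).union (countable_range _)
    · refine Countable.mono (s₂ := ⋃ x ∈ {t | t ∈ l}, (C.ι '' (g x).L ∪ (g x).e '' (g x).L)) ?_ ?_
      · rintro y ⟨x, hx, m, hm, rfl | rfl⟩
        · exact mem_iUnion₂.2 ⟨x, hx, Or.inl ⟨m, hm, rfl⟩⟩
        · exact mem_iUnion₂.2 ⟨x, hx, Or.inr ⟨m, hm, rfl⟩⟩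
      · refine Countable.biUnion l.finite_toSet.countable ?_
        intro x _
        exact ((countable_range _).image _).union ((countable_range _).image _)
    · refine Countable.mono (s₂ := ⋃ x ∈ {t | t ∈ l},
        (fun i => E.symm (i :: E x)) '' {i | IdxIn C {t | t ∈ l} i}) ?_ ?_
      · rintro y ⟨x, hx, i, hi, rfl⟩
        exact mem_iUnion₂.2 ⟨x, hx, ⟨i, hi, rfl⟩⟩
      · refine Countable.biUnion l.finite_toSet.countable ?_
        intro x _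
        exact (IdxIn_countable C _ l.finite_toSet.countable).image _
  obtain ⟨γ, X, hXc, hXγ, hXcl, hXw, δ, hδS, hδ0, hδ1, hXδ⟩ :=
    exists_closed C c hcc S hS d hd1
  have X0 : E.symm [] ∈ X := hXcl [] (by simp) (Or.inl (Or.inl (Or.inl rfl)))
  have X1 : ∀ x ∈ X, ∀ m ∈ (g x).L, C.ι m ∈ X ∧ (g x).e m ∈ X := by
    intro x hx m hm
    have hl : ∀ y ∈ [x], y ∈ X := by
      intro y hy; rw [List.mem_singleton] at hy; rw [hy]; exact hx
    exact ⟨hXcl [x] hl (Or.inl (Or.inl (Or.inr ⟨x, by simp, m, hm, Or.inl rfl⟩))),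
      hXcl [x] hl (Or.inl (Or.inl (Or.inr ⟨x, by simp, m, hm, Or.inr rfl⟩)))⟩
  have X2 : ∀ x ∈ X, ∀ i, IdxIn C X i → E.symm (i :: E x) ∈ X := by
    intro x hx i hi
    rcases i with ζ | y | ξ
    · refine hXcl [x, C.ι ζ] ?_ (Or.inl (Or.inr ⟨x, by simp, _, ?_, rfl⟩))
      · intro y hy
        simp only [List.mem_cons, List.not_mem_nil, or_false] at hy
        rcases hy with rfl | rfl
        · exact hx
        · exact hi
      · change C.ι ζ ∈ {t | t ∈ [x, C.ι ζ]}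
        simp
    · refine hXcl [x, C.ι y] ?_ (Or.inl (Or.inr ⟨x, by simp, _, ?_, rfl⟩))
      · intro y' hy
        simp only [List.mem_cons, List.not_mem_nil, or_false] at hy
        rcases hy with rfl | rfl
        · exact hx
        · exact hi
      · change C.ι y ∈ {t | t ∈ [x, C.ι y]}
        simp
    · refine hXcl [x, ξ] ?_ (Or.inl (Or.inr ⟨x, by simp, _, ?_, rfl⟩))
      · intro y' hy
        simp only [List.mem_cons, List.not_mem_nil, or_false] at hy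
        rcases hy with rfl | rfl
        · exact hx
        · exact hi
      · change ξ ∈ {t | t ∈ [x, ξ]}
        simp
  have X3 : ∀ x ∈ X, ∀ y ∈ X, ∀ n, b n [x, y] ∈ X := by
    intro x hx y hy n
    obtain ⟨m, hm⟩ := hAb n
    rw [← hm]
    refine hXcl [x, y] ?_ (Or.inr ⟨m, rfl⟩)
    intro t ht
    simp only [List.mem_cons, List.not_mem_nil, or_false] at ht
    rcases ht with rfl | rfl
    · exact hx
    · exact hy
  -- the generic sequence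
  obtain ⟨x, hx0, hxX, hanti, hmeet⟩ := exists_seq g X {i | IdxIn C X i}
    (IdxIn_countable C X hXc) (DD D) (E.symm []) X0 (by
      intro i hi y hy
      refine ⟨E.symm (i :: E y), X2 y hy i hi, ?_, ?_⟩
      · rw [hgE]; exact hh1 i (g y)
      · rw [hgE]; exact hh2 i (g y))
  have hL : ∀ n, (g (x n)).L ⊆ Iio δ := fun n m hm => (hXδ m).1 (X1 (x n) (hxX n) m hm).1
  obtain ⟨e, he1, he2, he3⟩ := limit_emb (fun n => g (x n)) hanti δ hL (by
    intro y hy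
    exact hmeet (Sum.inr (Sum.inl y)) ((hXδ y).2 hy))
  have hcov : ∀ ξ ∈ X, ∃ y < δ, e y = ξ := by
    intro ξ hξ
    obtain ⟨n, y, hy1, hy2⟩ := hmeet (Sum.inr (Sum.inr ξ)) hξ
    exact ⟨y, hL n hy1.1, (he1 n y hy1).trans hy2⟩
  have hval : ∀ y < δ, e y ∈ X := by
    intro y hy
    obtain ⟨n, hn⟩ := hmeet (Sum.inr (Sum.inl y)) ((hXδ y).2 hy)
    have hn' : Dec (g (x n)) y := hn
    rw [he1 n y hn']
    exact (X1 (x n) (hxX n) y hn'.1).2
  obtain ⟨l', hl'⟩ := (C.hΩ2 δ).exists_eq_range hδ0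
  have himg : e '' range l' = X := by
    rw [← hl']
    apply subset_antisymm
    · rintro _ ⟨y, hy, rfl⟩; exact hval y hy
    · intro ξ hξ
      obtain ⟨y, hy, rfl⟩ := hcov ξ hξ
      exact ⟨y, hy, rfl⟩
  have hgood : Good C (range l') e A := by
    refine hd2 γ l' e ?_ (by rw [himg]; exact hXw)
    intro y hy
    exact hXγ _ (himg.le ⟨y, hy, rfl⟩)
  let q : Cond C := ⟨l', e, A, hgood⟩
  have hqL : q.L = Iio δ := hl'.symm
  have hgx0 : g (x 0) = p := by rw [hx0, hg0]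
  have hqp : q ≤ p := by
    refine ⟨?_, hAp, ?_, ?_⟩
    · rw [hqL, ← hgx0]; exact hL 0
    · have := he2 0
      simp only [hgx0] at this
      exact this
    · intro y hy hR t ht hlt
      rw [hqL] at ht
      have := he3 0 y (by simpa only [hgx0] using hy) hR t ht hlt
      simpa only [hgx0] using this
  have hwle : ∀ n, WLe q (g (x n)) := by
    intro n
    refine ⟨?_, he2 n, ?_⟩
    · rw [hqL]; exact hL n
    · intro y hy hR t ht hlt
      rw [hqL] at ht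
      exact he3 n y hy hR t ht hlt
  have hmeetD : ∀ ζ : Ω, ∃ n, ζ < δ → g (x n) ∈ D ζ := by
    intro ζ
    by_cases hζ : ζ < δ
    · obtain ⟨n, hn⟩ := hmeet (Sum.inl ζ) ((hXδ ζ).2 hζ)
      exact ⟨n, fun _ => hn⟩
    · exact ⟨0, fun h => absurd h hζ⟩
  choose N hN using hmeetD
  refine ⟨range g, mk_range_le, q, hqp, δ, hδS, hδ0, hδ1, fun ζ => w ζ (g (x (N ζ))), ?_⟩
  intro ζ hζ
  have hζX : C.ι ζ ∈ X := (hXδ ζ).2 hζ
  have hopt : opt C (C.ι ζ) = some ζ := opt_eq_some.2 rfl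
  have hwF : ∀ y, wF [y, C.ι ζ] = C.ι (w ζ (g y)) := by
    intro y
    simp only [wF, fun2, hopt]
  have hvF : ∀ y, vF [y, C.ι ζ] = v ζ (g y) := by
    intro y
    simp only [vF, fun2, hopt]
  have hdF : ∀ y, dF [y, C.ι ζ] = C.ι s₁ ↔ g y ∈ D ζ := by
    intro y
    have h1 : (∃ ζ', C.ι ζ' = C.ι ζ ∧ g y ∈ D ζ') ↔ g y ∈ D ζ := by
      constructor
      · rintro ⟨ζ', h1, h2⟩
        rw [← C.ι_inj h1]; exact h2
      · intro h; exact ⟨ζ, rfl, h⟩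
    simp only [dF, fun2, h1]
    split_ifs with h2
    · exact ⟨fun _ => h2, fun _ => rfl⟩
    · exact ⟨fun h => absurd (C.ι_inj h).symm hs, fun h => absurd h h2⟩
  obtain ⟨zn, hzn, hezn⟩ := hcov (x (N ζ)) (hxX (N ζ))
  obtain ⟨zζ, hzζ, hezζ⟩ := hcov (C.ι ζ) hζX
  have hkX : C.ι (w ζ (g (x (N ζ)))) ∈ X := by
    have := X3 (x (N ζ)) (hxX (N ζ)) (C.ι ζ) hζX 2
    change wF [x (N ζ), C.ι ζ] ∈ X at this
    rwa [hwF] at this
  have hvX : v ζ (g (x (N ζ))) ∈ X := by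
    have := X3 (x (N ζ)) (hxX (N ζ)) (C.ι ζ) hζX 3
    change vF [x (N ζ), C.ι ζ] ∈ X at this
    rwa [hvF] at this
  obtain ⟨z', hz', hez'⟩ := hcov _ hvX
  refine ⟨(hXδ _).1 hkX, z', by rw [hqL]; exact hz', ?_⟩
  intro q₁ hq₁
  have hznq : zn ∈ q.L := by rw [hqL]; exact hzn
  have hzζq : zζ ∈ q.L := by rw [hqL]; exact hzζ
  have hz'q : z' ∈ q.L := by rw [hqL]; exact hz'
  obtain ⟨q', hq', -, hq'a⟩ := exists_add z₀ g q₁ (hAf.trans hq₁.2.1) zn (hq₁.1 hznq)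
  have hq'q : q' ≤ q := hq'.trans hq₁
  have hqe : q.e zn = x (N ζ) := hezn
  have hle : q' ≤ g (q'.e zn) := by
    refine le_of_add z₀ f hf g q hAf (hAb 0) zn hznq ?_ q' hq'q hq'a
    rw [hqe]
    exact hwle (N ζ)
  have hqζ : q'.e zζ = C.ι ζ := ((hq'q.2.2.1).cst zζ hzζq ζ).2 hezζ
  have hlist : ∀ y ∈ [zn, zζ], y ∈ q.L := by
    intro y hy
    simp only [List.mem_cons, List.not_mem_nil, or_false] at hy
    rcases hy with rfl | rfl
    · exact hznq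
    · exact hzζq
  have hm1 : [zn, zζ].map q'.e = [q'.e zn, C.ι ζ] := by simp [hqζ]
  have hm2 : [zn, zζ].map q.e = [x (N ζ), C.ι ζ] := by
    have : q.e zζ = C.ι ζ := hezζ
    simp [hqe, this]
  refine ⟨q', hq', g (q'.e zn), ⟨_, rfl⟩, ?_, hle, ?_, ?_⟩
  · obtain ⟨n, hn⟩ := hAb 1
    have h1 := hq'q.2.2.1.fv n [zn, zζ] hlist s₁
    rw [hm1, hm2] at h1
    change A n _ = _ ↔ A n _ = _ at h1
    rw [hn] at h1
    exact (hdF _).1 (h1.2 ((hdF _).2 (hN ζ hζ)))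
  · obtain ⟨n, hn⟩ := hAb 2
    have h1 := hq'q.2.2.1.fv n [zn, zζ] hlist (w ζ (g (x (N ζ))))
    rw [hm1, hm2] at h1
    change A n _ = _ ↔ A n _ = _ at h1
    rw [hn] at h1
    change wF _ = _ ↔ wF _ = _ at h1
    rw [hwF, hwF] at h1
    exact C.ι_inj (h1.2 rfl)
  · obtain ⟨n, hn⟩ := hAb 3
    have h1 := hq'q.2.2.1.fe n [zn, zζ] hlist z' hz'q
    rw [hm1, hm2] at h1
    change A n _ = _ ↔ A n _ = _ at h1
    rw [hn] at h1
    change vF _ = _ ↔ vF _ = _ at h1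
    rw [hvF, hvF] at h1
    exact h1.2 hez'.symm

end Pool.Agent.MP84eb94
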