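import Pool.Agent.W_MP_84eb94_lc.Base

open Set Cardinal Ordinal

universe u

namespace Pool.Agent.MP84eb94

/-! Statement of the principle. A set `A i ⊆ P` is used as a name for the event that the generic
filter `G` meets `A i`; every relation in the extension between ground model sets has such a
name. -/

/-- `P` adds no reals: every name `A` for a subset of the natural numbers is forced, below a dense
set of conditions, to be a set `a` of the ground model -/
def AddsNoReals (P : Type u) [Preorder P] : Prop :=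
  ∀ (A : ℕ → Set P) (p : P), ∃ q ≤ p, ∃ a : Set ℕ,
    ∀ n, (n ∈ a → Frc q (A n)) ∧ (n ∉ a → ∀ r ≤ q, ¬ Frc r (A n))

/-- closed unbounded subsets of the first uncountable ordinal -/
def IsClubω₁ (D : Set Ordinal.{u}) : Prop :=
  (∀ ζ < ω₁, ∃ η ∈ D, ζ < η ∧ η < ω₁) ∧
    ∀ δ, 0 < δ → δ < ω₁ → (∀ ζ < δ, ∃ η ∈ D, ζ < η ∧ η < δ) → δ ∈ D

/-- stationary subsets of the first uncountable ordinal -/
def Statω₁ (S : Set Ordinal.{u}) : Prop :=
  ∀ D : Set Ordinal.{u}, IsClubω₁ D → ∃ δ < ω₁, δ ∈ S ∧ δ ∈ D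

/-- `p` forces the set named by `D` to be a closed unbounded subset of the first uncountable
ordinal of the ground model -/
def ForcesClub {P : Type u} [Preorder P] (p : P) (D : Ordinal.{u} → Set P) : Prop :=
  (∀ ζ < ω₁, Frc p {r | ∃ η, ζ < η ∧ η < ω₁ ∧ r ∈ D η}) ∧
    ∀ δ, 0 < δ → δ < ω₁ → ∀ q ≤ p,
      (∀ ζ < δ, Frc q {r | ∃ η, ζ < η ∧ η < δ ∧ r ∈ D η}) → Frc q (D δ)

/-- stationary subsets of the first uncountable ordinal stay stationary in the extension -/
def StationaryPreserving (P : Type u) [Preorder P] : Prop :=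
  ∀ S : Set Ordinal.{u}, Statω₁ S → ∀ (p : P) (D : Ordinal.{u} → Set P), ForcesClub p D →
    Frc p {r | ∃ δ < ω₁, δ ∈ S ∧ r ∈ D δ}

/-- `p` forces the relation named by `F` to be a function from `κ` to `θ` whose range is cofinal
in `θ` -/
def ForcesCofinalMap {P : Type u} [Preorder P] (p : P) (κ θ : Ordinal.{u})
    (F : Ordinal.{u} → Ordinal.{u} → Set P) : Prop :=
  (∀ i < κ, Frc p {r | ∃ η < θ, r ∈ F i η}) ∧
  (∀ i < κ, ∀ η < θ, ∀ η' < θ, η ≠ η' → ∀ q ≤ p, ¬ (Frc q (F i η) ∧ Frc q (F i η'))) ∧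
  (∀ ξ < θ, Frc p {r | ∃ i < κ, ∃ η < θ, ξ ≤ η ∧ r ∈ F i η})

/-- every generic extension contains a cofinal map from `κ` to `θ` -/
def AlwaysCofinalMap (P : Type u) [Preorder P] (κ θ : Ordinal.{u}) : Prop :=
  ∀ p : P, ∃ q ≤ p, ∃ F, ForcesCofinalMap q κ θ F

/-- no generic extension contains a cofinal map from `κ` to `θ` -/
def NeverCofinalMap (P : Type u) [Preorder P] (κ θ : Ordinal.{u}) : Prop :=
  ∀ (p : P) F, ¬ ForcesCofinalMap p κ θ F

/-- the principle `Nb₂(lam)` -/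
def Nb₂ (lam : Cardinal.{u}) : Prop :=
  ∃ (P : Type u) (_ : Preorder P) (_ : Nonempty P),
    StationaryPreserving P ∧ AddsNoReals P ∧
    (∀ α : Cardinal.{u}, α.IsRegular → ℵ_ 2 ≤ α → α < lam → AlwaysCofinalMap P ω α.ord) ∧
    (AlwaysCofinalMap P ω₁ lam.ord ∧ NeverCofinalMap P ω lam.ord) ∧
    (∀ β : Cardinal.{u}, β.IsRegular → lam < β → NeverCofinalMap P ω β.ord)

end Pool.Agent.MP84eb94
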